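import Pool.Agent.Lib.FD.LocFin

set_option autoImplicit false

namespace FD

open Finset

section Base

variable {p : ℕ} [hp : Fact p.Prime] {k : Type*} [Field k] [CharP k p] {n : ℕ}
  {V : Type*} [AddCommGroup V] [Module (Torus k n) V] (S : FDiv p (Torus k n) V)

omit hp [CharP k p] in
open scoped Classical in
theorem proj_of_mon (q : ℕ) (c a : Fin n → ℤ) :
    proj k p q c (mon k a) = if Cong p q a c then mon k a else 0 := by
  ext b
  rw [coeff_proj, mon, AddMonoidAlgebra.coeff_single]
  by_cases hab : a = b
  · subst hab
    split_ifs <;> simp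
  · split_ifs <;> simp [hab]

theorem P_smul_hom {q : ℕ} {g : Fin n → ℤ} {v : V} (hv : P S q g v = v) (c : Fin n → ℤ)
    (f : Torus k n) : P S q c (f • v) = proj k p q (c - g) f • v := by
  classical
  induction f using torus_induction with
  | h0 => simp
  | hadd x y hx hy => rw [add_smul, map_add, hx, hy, map_add, add_smul]
  | hmon r a =>
    rw [mul_smul, P_scalar_smul, P_mon_smul, proj_scalar_mul, mul_smul]
    congr 1
    conv_lhs => rw [← hv]
    rw [P_P S le_rfl, proj_of_mon]
    have h : Cong p q g (c - a) ↔ Cong p q a (c - g) := by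
      constructor
      · intro h i
        have := dvd_neg.mpr (h i)
        have e : a i - (c - g) i = (g i - (c - a) i) := by
          rw [Pi.sub_apply, Pi.sub_apply]; ring
        rw [e]; exact h i
      · intro h i
        have e : (g i - (c - a) i) = a i - (c - g) i := by
          rw [Pi.sub_apply, Pi.sub_apply]; ring
        rw [e]; exact h i
    rw [h]
    split_ifs
    · rw [hv]
    · rw [smul_zero, zero_smul]

/-- for large `q` the exponents of `f` are incongruent modulo `p^q` -/
theorem exists_separating (f : Torus k n) (a : Fin n → ℤ) :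
    ∃ q, proj k p q a f = algebraMap k (Torus k n) (f.coeff a) * mon k a := by
  classical
  set T := f.coeff.support ∪ {a} with hT
  refine ⟨2 * ∑ b ∈ T, ∑ i, (b i).natAbs, ?_⟩
  set q := 2 * ∑ b ∈ T, ∑ i, (b i).natAbs with hq
  have hlt : q < p ^ q := Nat.lt_pow_self hp.out.one_lt
  ext b
  rw [coeff_proj, coeff_scalar_mul, mon, AddMonoidAlgebra.coeff_single]
  by_cases hab : a = b
  · subst hab
    simp [Cong.refl]
  · rw [Finsupp.single_eq_of_ne (Ne.symm hab), mul_zero]
    by_cases hb : f.coeff b = 0
    · rw [hb]; simp
    · rw [if_neg]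
      intro hc
      apply hab
      funext i
      have hbound : ∀ c ∈ T, (c i).natAbs ≤ ∑ b ∈ T, ∑ i, (b i).natAbs := by
        intro c hcT
        have h1 : (c i).natAbs ≤ ∑ i, (c i).natAbs :=
          Finset.single_le_sum (f := fun i => (c i).natAbs) (fun _ _ => Nat.zero_le _)
            (Finset.mem_univ i)
        have h2 : ∑ i, (c i).natAbs ≤ ∑ b ∈ T, ∑ i, (b i).natAbs :=
          Finset.single_le_sum (f := fun b : Fin n → ℤ => ∑ i, (b i).natAbs)
            (fun _ _ => Nat.zero_le _) hcT
        omega
      have hbT : b ∈ T := Finset.mem_union_left _ (Finsupp.mem_support_iff.mpr hb)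
      have haT : a ∈ T := Finset.mem_union_right _ (Finset.mem_singleton_self a)
      have h1 := hbound b hbT
      have h2 := hbound a haT
      have h3 : ((b i - a i).natAbs) < p ^ q := by
        have : (b i - a i).natAbs ≤ (b i).natAbs + (a i).natAbs := Int.natAbs_sub_le _ _
        omega
      have h4 := hc i
      have h5 : b i - a i = 0 := by
        by_contra hne
        have h6 := Int.natAbs_dvd_natAbs.mpr h4
        rw [Int.natAbs_pow, Int.natAbs_natCast] at h6
        have h7 := Nat.le_of_dvd (Int.natAbs_pos.mpr hne) h6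
        omega
      linarith

theorem mon_mul_neg (a : Fin n → ℤ) : mon k (-a) * mon k a = 1 := by
  rw [mon_mul_mon, neg_add_cancel, mon_zero]

variable [Module k V] [IsScalarTower k (Torus k n) V]

/-- A regular singular F-divided bundle on the torus has a basis of homogeneous elements. -/
theorem exists_basis (hreg : RegularTorus S) :
    ∃ (d : ℕ) (b : Module.Basis (Fin d) (Torus k n) V) (γ : Fin d → ℕ → Fin n → ℤ),
      ∀ i, b i ∈ Vg S (γ i) := by
  classical
  let ι := {x : V // x ∈ ⋃ γ, Vg S γ}
  obtain ⟨s, hs, hmax⟩ := exists_maximal_linearIndepOn (Torus k n) (fun x : ι => (x : V))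
  set U := Submodule.span (Torus k n) ((fun x : ι => (x : V)) '' s) with hU
  have hP : ∀ q c, ∀ w ∈ U, P S q c w ∈ U := by
    intro q c w hw
    induction hw using Submodule.span_induction generalizing c with
    | mem x hx =>
      obtain ⟨y, hy, rfl⟩ := hx
      obtain ⟨γ, hγ⟩ := Set.mem_iUnion.mp y.2
      have h1 := P_smul_hom S (hγ q) c 1
      rw [one_smul] at h1
      rw [h1]
      exact Submodule.smul_mem _ _ (Submodule.subset_span ⟨y, hy, rfl⟩)
    | zero => rw [map_zero]; exact Submodule.zero_mem _
    | add x y _ _ hx hy => rw [map_add]; exact Submodule.add_mem _ (hx c) (hy c)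
    | smul f x _ hx =>
      induction f using torus_induction with
      | h0 => rw [zero_smul, map_zero]; exact Submodule.zero_mem _
      | hadd f g hf hg => rw [add_smul, map_add]; exact Submodule.add_mem _ hf hg
      | hmon r a =>
        rw [mul_smul, P_scalar_smul, P_mon_smul]
        exact Submodule.smul_mem _ _ (Submodule.smul_mem _ _ (hx _))
  have hall : ∀ x : ι, (x : V) ∈ U := by
    intro x
    by_cases hx : x ∈ s
    · exact Submodule.subset_span ⟨x, hx, rfl⟩
    · obtain ⟨f, hf, hfx⟩ := hmax x hx
      obtain ⟨γ, hγ⟩ := Set.mem_iUnion.mp x.2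
      have hne : f.coeff ≠ 0 := fun h => hf (AddMonoidAlgebra.coeff_eq_zero.mp h)
      obtain ⟨a, ha⟩ := Finsupp.ne_iff.mp hne
      obtain ⟨q, hq⟩ := exists_separating (p := p) f a
      have h1 := hP q (γ q + a) _ hfx
      rw [P_smul_hom S (hγ q), add_sub_cancel_left, hq] at h1
      have h2 := U.smul_mem (mon k (-a) * algebraMap k (Torus k n) (f.coeff a)⁻¹) h1
      rw [smul_smul] at h2
      have h3 : mon k (-a) * algebraMap k (Torus k n) (f.coeff a)⁻¹
          * (algebraMap k (Torus k n) (f.coeff a) * mon k a) = 1 := by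
        have h4 : algebraMap k (Torus k n) (f.coeff a)⁻¹ * algebraMap k (Torus k n) (f.coeff a)
            = 1 := by
          rw [← map_mul, inv_mul_cancel₀ (by simpa using ha), map_one]
        calc _ = (algebraMap k (Torus k n) (f.coeff a)⁻¹ * algebraMap k (Torus k n) (f.coeff a))
              * (mon k (-a) * mon k a) := by ring
          _ = 1 := by rw [h4, mon_mul_neg, one_mul]
      rw [h3, one_smul] at h2
      exact h2
  have htop : ⊤ ≤ U := by
    intro v _
    have hv := mem_span_Vg S hreg v
    induction hv using Submodule.span_induction with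
    | mem x hx => exact hall ⟨x, hx⟩
    | zero => exact Submodule.zero_mem _
    | add x y _ _ hx hy => exact Submodule.add_mem _ (hx trivial) (hy trivial)
    | smul r x _ hx =>
      rw [← algebraMap_smul (Torus k n) r x]
      exact Submodule.smul_mem _ _ (hx trivial)
  have hli : LinearIndependent (Torus k n) (fun x : s => ((x : ι) : V)) := hs
  have hfin : Finite s := by
    obtain ⟨d, e, ξ, hsum⟩ := S.exists_coords
    refine LinearIndependent.finite_of_le_span_finite _ hli (Set.range e) ?_
    intro v _
    rw [← hsum v]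
    exact Submodule.sum_mem _ fun i _ =>
      Submodule.smul_mem _ _ (Submodule.subset_span ⟨i, rfl⟩)
  have hrange : Set.range (fun x : s => ((x : ι) : V)) = (fun x : ι => (x : V)) '' s := by
    ext y
    constructor
    · rintro ⟨x, rfl⟩; exact ⟨x, x.2, rfl⟩
    · rintro ⟨x, hx, rfl⟩; exact ⟨⟨x, hx⟩, rfl⟩
  let b := Module.Basis.mk hli (by rw [hrange]; exact htop)
  have e := Finite.equivFin s
  refine ⟨Nat.card s, b.reindex e, fun i => Classical.choose (Set.mem_iUnion.mp (e.symm i).1.2),
    fun i => ?_⟩
  have h1 := Classical.choose_spec (Set.mem_iUnion.mp (e.symm i).1.2)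
  rw [Module.Basis.reindex_apply, Module.Basis.mk_apply]
  exact h1

end Base

end FD
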