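import Pool.Agent.Lib.FD.Defs

set_option autoImplicit false

namespace FD

open Finset

section Basic

variable {p : ℕ} {B M : Type*} [CommRing B] [AddCommGroup M] [Module B M] (S : FDiv p B M)

theorem FDiv.anti_le {q r : ℕ} (h : q ≤ r) : S.F r ≤ S.F q := by
  induction r, h using Nat.le_induction with
  | base => exact le_rfl
  | succ r _ ih => exact (S.anti r).trans ih

/-- The action of the operator `Q` of level `q`. -/
theorem exists_induced (q : ℕ) (Q : B →+ B) (hQ : ∀ c f, Q (c ^ p ^ q * f) = c ^ p ^ q * Q f) :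
    ∃ Q' : M →+ M, IsInduced S q Q Q' := by
  obtain ⟨d, e, ξ, he, hξ, hsum⟩ := S.dual q
  refine ⟨∑ i, ((LinearMap.toSpanSingleton B M (e i)).toAddMonoidHom.comp
    (Q.comp (ξ i).toAddMonoidHom)), ?_⟩
  intro f m hm
  rw [AddMonoidHom.finsetSum_apply]
  simp only [AddMonoidHom.comp_apply, LinearMap.toAddMonoidHom_coe, map_smul,
    LinearMap.toSpanSingleton_apply]
  conv_rhs => rw [← hsum m, Finset.smul_sum]
  refine Finset.sum_congr rfl fun i _ => ?_
  obtain ⟨c, hc⟩ := hξ i m hm
  rw [← hc, smul_eq_mul, mul_comm f, hQ, mul_comm, mul_smul]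

theorem IsInduced.eq {q : ℕ} {Q : B →+ B} {Q' Q'' : M →+ M} (h' : IsInduced S q Q Q')
    (h'' : IsInduced S q Q Q'') : Q' = Q'' := by
  obtain ⟨d, e, ξ, he, hξ, hsum⟩ := S.dual q
  ext m
  rw [← hsum m, map_sum, map_sum]
  refine Finset.sum_congr rfl fun i _ => ?_
  rw [h' _ _ (he i), h'' _ _ (he i)]

theorem induction_level (q : ℕ) {P : M → Prop} (h0 : P 0) (hadd : ∀ x y, P x → P y → P (x + y))
    (hsmul : ∀ (f : B) (m : M), m ∈ S.F q → P (f • m)) (m : M) : P m := by
  obtain ⟨d, e, ξ, he, hξ, hsum⟩ := S.dual q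
  rw [← hsum m]
  have : ∀ s : Finset (Fin d), P (∑ i ∈ s, ξ i m • e i) := by
    classical
    intro s
    induction s using Finset.induction_on with
    | empty => simpa using h0
    | insert a s ha ih => rw [Finset.sum_insert ha]; exact hadd _ _ (hsmul _ _ (he a)) ih
  exact this Finset.univ

/-- coordinates at level `0` -/
theorem FDiv.exists_coords (S : FDiv p B M) : ∃ (d : ℕ) (e : Fin d → M) (ξ : Fin d → (M →ₗ[B] B)),
    ∀ m, ∑ i, ξ i m • e i = m := by
  obtain ⟨d, e, ξ, _, _, hsum⟩ := S.dual 0
  exact ⟨d, e, ξ, hsum⟩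

end Basic

section TorusOps

variable {k : Type*} [Field k] {n : ℕ}

/-- congruence of exponents modulo `p^q` -/
def Cong (p q : ℕ) (a b : Fin n → ℤ) : Prop := ∀ i, ((p : ℤ) ^ q) ∣ a i - b i

theorem Cong.refl (p q : ℕ) (a : Fin n → ℤ) : Cong p q a a := fun i => by simp

theorem Cong.symm {p q : ℕ} {a b : Fin n → ℤ} (h : Cong p q a b) : Cong p q b a := fun i => by
  have := (dvd_neg.mpr (h i))
  rwa [neg_sub] at this

theorem Cong.trans {p q : ℕ} {a b c : Fin n → ℤ} (h : Cong p q a b) (h' : Cong p q b c) :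
    Cong p q a c := fun i => by
  have := dvd_add (h i) (h' i)
  rwa [sub_add_sub_cancel] at this

theorem Cong.mono {p q r : ℕ} (hqr : q ≤ r) {a b : Fin n → ℤ} (h : Cong p r a b) :
    Cong p q a b := fun i => (pow_dvd_pow _ hqr).trans (h i)

theorem Cong.add {p q : ℕ} {a b c d : Fin n → ℤ} (h : Cong p q a b) (h' : Cong p q c d) :
    Cong p q (a + c) (b + d) := fun i => by
  have h1 := dvd_add (h i) (h' i)
  have h2 : (a + c) i - (b + d) i = a i - b i + (c i - d i) := by
    rw [Pi.add_apply, Pi.add_apply]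
    ring
  rw [h2]
  exact h1

/-- the part of `f` with exponents congruent to `c` -/
noncomputable def proj (k : Type*) [Field k] {n : ℕ} (p q : ℕ) (c : Fin n → ℤ) :
    Torus k n →+ Torus k n := by
  classical
  exact
  { toFun := fun f => AddMonoidAlgebra.ofCoeff (f.coeff.filter (fun a => Cong p q a c))
    map_zero' := by
      ext a
      simp [Finsupp.filter_zero]
    map_add' := by
      intro f g
      ext a
      simp [Finsupp.filter_add] }

open scoped Classical in
theorem coeff_proj (p q : ℕ) (c : Fin n → ℤ) (f : Torus k n) (a : Fin n → ℤ) :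
    (proj k p q c f).coeff a = if Cong p q a c then f.coeff a else 0 := by
  show (f.coeff.filter _) a = _
  rw [Finsupp.filter_apply]

theorem mon_mul_mon (a b : Fin n → ℤ) : mon k a * mon k b = mon k (a + b) := by
  rw [mon, mon, AddMonoidAlgebra.single_mul_single, mul_one]
  rfl

theorem mon_zero : mon k (0 : Fin n → ℤ) = 1 := rfl

theorem coeff_mon_mul (a : Fin n → ℤ) (f : Torus k n) (b : Fin n → ℤ) :
    (mon k a * f).coeff b = f.coeff (b - a) := by
  rw [mon, AddMonoidAlgebra.coeff_single_mul_apply, one_mul]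
  congr 1
  abel

open scoped Classical in
theorem proj_mon_mul (p q : ℕ) (c a : Fin n → ℤ) (f : Torus k n) :
    proj k p q c (mon k a * f) = mon k a * proj k p q (c - a) f := by
  ext b
  rw [coeff_proj, coeff_mon_mul, coeff_mon_mul, coeff_proj]
  have h : Cong p q b c ↔ Cong p q (b - a) (c - a) := by
    constructor <;> intro h i <;> have := h i <;> simpa using this
  rw [h]

theorem proj_congr {p q : ℕ} {c d : Fin n → ℤ} (h : Cong p q c d) (f : Torus k n) :
    proj k p q c f = proj k p q d f := by
  classical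
  ext b
  rw [coeff_proj, coeff_proj]
  have : Cong p q b c ↔ Cong p q b d := ⟨fun h' => h'.trans h, fun h' => h'.trans h.symm⟩
  rw [this]

theorem coeff_scalar_mul (r : k) (f : Torus k n) (b : Fin n → ℤ) :
    (algebraMap k (Torus k n) r * f).coeff b = r * f.coeff b := by
  rw [← Algebra.smul_def]
  rfl

theorem proj_scalar_mul (p q : ℕ) (c : Fin n → ℤ) (r : k) (f : Torus k n) :
    proj k p q c (algebraMap k (Torus k n) r * f)
      = algebraMap k (Torus k n) r * proj k p q c f := by
  classical
  ext b
  rw [coeff_proj, coeff_scalar_mul, coeff_scalar_mul, coeff_proj]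
  split_ifs <;> simp

theorem single_eq (a : Fin n → ℤ) (r : k) :
    (AddMonoidAlgebra.single a r : Torus k n) = algebraMap k (Torus k n) r * mon k a := by
  ext b
  rw [coeff_scalar_mul, mon, AddMonoidAlgebra.coeff_single, AddMonoidAlgebra.coeff_single]
  by_cases h : a = b
  · subst h; simp
  · simp [h]

theorem torus_induction {P : Torus k n → Prop} (f : Torus k n) (h0 : P 0)
    (hadd : ∀ x y, P x → P y → P (x + y))
    (hmon : ∀ (r : k) (a : Fin n → ℤ), P (algebraMap k (Torus k n) r * mon k a)) : P f := by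
  rw [← AddMonoidAlgebra.sum_coeff_single f, Finsupp.sum]
  have : ∀ s : Finset (Fin n → ℤ),
      P (∑ a ∈ s, AddMonoidAlgebra.single a (f.coeff a)) := by
    classical
    intro s
    induction s using Finset.induction_on with
    | empty => simpa using h0
    | insert a s ha ih =>
      rw [Finset.sum_insert ha]
      refine hadd _ _ ?_ ih
      rw [single_eq]
      exact hmon _ _
  exact this _

variable (p : ℕ) [hp : Fact p.Prime] [CharP k p]

instance torusCharP : CharP (Torus k n) p :=
  charP_of_injective_algebraMap (algebraMap k (Torus k n)).injective p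

theorem mon_pow (a : Fin n → ℤ) (m : ℕ) : mon k a ^ m = mon k (m • a) := by
  induction m with
  | zero => rw [pow_zero, zero_smul]; rfl
  | succ m ih => rw [pow_succ, ih, mon_mul_mon, succ_nsmul]

theorem cong_pow_smul (q : ℕ) (a c : Fin n → ℤ) : Cong p q (c - (p ^ q) • a) c := by
  intro i
  rw [Pi.sub_apply, Pi.smul_apply, nsmul_eq_mul]
  push_cast
  exact ⟨-a i, by ring⟩

/-- `proj` is linear over the `p^q`-th powers -/
theorem proj_pow_mul (q : ℕ) (c : Fin n → ℤ) (s f : Torus k n) :
    proj k p q c (s ^ p ^ q * f) = s ^ p ^ q * proj k p q c f := by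
  induction s using torus_induction with
  | h0 => rw [zero_pow (pow_ne_zero _ hp.out.ne_zero), zero_mul, zero_mul, map_zero]
  | hadd x y hx hy => rw [add_pow_char_pow, add_mul, add_mul, map_add, hx, hy]
  | hmon r a =>
    rw [mul_pow, ← map_pow, mon_pow, mul_assoc, proj_scalar_mul, proj_mon_mul,
      proj_congr (cong_pow_smul p q a c), mul_assoc]

omit hp [CharP k p] in
theorem proj_zero_one (q : ℕ) : proj k p q (0 : Fin n → ℤ) 1 = 1 := by
  classical
  ext b
  rw [coeff_proj]
  split_ifs with h
  · rfl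
  · have : b ≠ 0 := by
      rintro rfl
      exact h (Cong.refl p q 0)
    have h1 : (1 : Torus k n) = AddMonoidAlgebra.single 0 1 := rfl
    rw [h1, AddMonoidAlgebra.coeff_single]
    simp [this.symm]

theorem proj_zero_of_isPow {q : ℕ} {f : Torus k n} (h : IsPow p q f) :
    proj k p q 0 f = f := by
  obtain ⟨c, rfl⟩ := h
  have := proj_pow_mul p q 0 c 1
  rwa [mul_one, proj_zero_one, mul_one] at this

omit [CharP k p] in
theorem isPow_zero (q : ℕ) : IsPow p q (0 : Torus k n) :=
  ⟨0, zero_pow (pow_ne_zero _ hp.out.ne_zero)⟩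

theorem IsPow.add {B : Type*} [CommRing B] [CharP B p] {q : ℕ} {f g : B} (h : IsPow p q f)
    (h' : IsPow p q g) : IsPow p q (f + g) := by
  obtain ⟨a, rfl⟩ := h
  obtain ⟨b, rfl⟩ := h'
  exact ⟨a + b, add_pow_char_pow _ _ _ _⟩

variable [IsAlgClosed k]

/-- Laurent polynomials with exponents divisible by `p^q` are `p^q`-th powers -/
theorem isPow_of_proj {q : ℕ} {f : Torus k n} (h : proj k p q 0 f = f) : IsPow p q f := by
  classical
  have h1 : ∀ s : Finset (Fin n → ℤ), IsPow p q
      (∑ a ∈ s, AddMonoidAlgebra.single a ((proj k p q 0 f).coeff a)) := by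
    intro s
    induction s using Finset.induction_on with
    | empty => simpa using isPow_zero p q
    | insert a s ha ih =>
      rw [Finset.sum_insert ha]
      refine IsPow.add p ?_ ih
      rw [coeff_proj]
      split_ifs with hc
      · obtain ⟨r, hr⟩ := IsAlgClosed.exists_pow_nat_eq (f.coeff a)
          (Nat.pos_of_ne_zero (pow_ne_zero q hp.out.ne_zero))
        choose b hb using hc
        refine ⟨algebraMap k _ r * mon k b, ?_⟩
        rw [mul_pow, ← map_pow, hr, mon_pow, single_eq]
        congr 2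
        funext i
        have := hb i
        simp only [Pi.zero_apply, sub_zero] at this
        rw [this, Pi.smul_apply, nsmul_eq_mul]
        push_cast
        ring
      · rw [AddMonoidAlgebra.single_zero]
        exact isPow_zero p q
  have h2 := h1 (proj k p q 0 f).coeff.support
  have h3 := AddMonoidAlgebra.sum_coeff_single (proj k p q 0 f)
  rw [Finsupp.sum] at h3
  rw [h3, h] at h2
  exact h2

end TorusOps

end FD
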