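import Pool.Agent.Lib.FD.Basic

set_option autoImplicit false

namespace FD

open Finset

section Grading

variable {p : ℕ} [hp : Fact p.Prime] {k : Type*} [Field k] [CharP k p] {n : ℕ}
  {V : Type*} [AddCommGroup V] [Module (Torus k n) V] (S : FDiv p (Torus k n) V)

/-- the projection of `V` to its part of degree `c` modulo `p^q` -/
noncomputable def P (q : ℕ) (c : Fin n → ℤ) : V →+ V :=
  Classical.choose (exists_induced S q (proj k p q c) (proj_pow_mul p q c))

theorem P_smul (q : ℕ) (c : Fin n → ℤ) (f : Torus k n) {m : V} (hm : m ∈ S.F q) :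
    P S q c (f • m) = proj k p q c f • m :=
  Classical.choose_spec (exists_induced S q (proj k p q c) (proj_pow_mul p q c)) f m hm

theorem P_mon_smul (q : ℕ) (c a : Fin n → ℤ) (v : V) :
    P S q c (mon k a • v) = mon k a • P S q (c - a) v := by
  induction v using induction_level S q with
  | h0 => simp
  | hadd x y hx hy => rw [smul_add, map_add, hx, hy, map_add, smul_add]
  | hsmul f m hm => rw [smul_smul, P_smul S q c _ hm, proj_mon_mul, P_smul S q _ _ hm, mul_smul]

theorem P_scalar_smul (q : ℕ) (c : Fin n → ℤ) (r : k) (v : V) :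
    P S q c (algebraMap k (Torus k n) r • v) = algebraMap k (Torus k n) r • P S q c v := by
  induction v using induction_level S q with
  | h0 => simp
  | hadd x y hx hy => rw [smul_add, map_add, hx, hy, map_add, smul_add]
  | hsmul f m hm => rw [smul_smul, P_smul S q c _ hm, proj_scalar_mul, P_smul S q _ _ hm, mul_smul]

omit hp [CharP k p] in
open scoped Classical in
theorem proj_proj {q r : ℕ} (h : q ≤ r) (c d : Fin n → ℤ) (f : Torus k n) :
    proj k p q c (proj k p r d f) = if Cong p q d c then proj k p r d f else 0 := by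
  ext a
  rw [coeff_proj, coeff_proj]
  by_cases h1 : Cong p r a d
  · have h2 : Cong p q a c ↔ Cong p q d c :=
      ⟨fun h' => (h1.mono h).symm.trans h', fun h' => (h1.mono h).trans h'⟩
    rw [h2]
    split_ifs <;> simp [coeff_proj, h1]
  · split_ifs <;> simp [coeff_proj, h1]

omit hp [CharP k p] in
open scoped Classical in
theorem proj_proj' {q r : ℕ} (h : q ≤ r) (c d : Fin n → ℤ) (f : Torus k n) :
    proj k p r d (proj k p q c f) = if Cong p q d c then proj k p r d f else 0 := by
  ext a
  rw [coeff_proj, coeff_proj]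
  by_cases h1 : Cong p r a d
  · have h2 : Cong p q a c ↔ Cong p q d c :=
      ⟨fun h' => (h1.mono h).symm.trans h', fun h' => (h1.mono h).trans h'⟩
    rw [h2]
    split_ifs <;> simp [coeff_proj, h1]
  · split_ifs <;> simp [coeff_proj, h1]

open scoped Classical in
theorem P_P {q r : ℕ} (h : q ≤ r) (c d : Fin n → ℤ) (v : V) :
    P S q c (P S r d v) = if Cong p q d c then P S r d v else 0 := by
  induction v using induction_level S r with
  | h0 => simp
  | hadd x y hx hy =>
    rw [map_add, map_add, hx, hy]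
    split_ifs <;> simp
  | hsmul f m hm =>
    rw [P_smul S r d f hm, P_smul S q c _ (S.anti_le h hm), proj_proj h]
    split_ifs <;> simp

open scoped Classical in
theorem P_P' {q r : ℕ} (h : q ≤ r) (c d : Fin n → ℤ) (v : V) :
    P S r d (P S q c v) = if Cong p q d c then P S r d v else 0 := by
  induction v using induction_level S r with
  | h0 => simp
  | hadd x y hx hy =>
    rw [map_add, map_add, map_add, hx, hy]
    split_ifs <;> simp
  | hsmul f m hm =>
    rw [P_smul S r d f hm, P_smul S q c _ (S.anti_le h hm), P_smul S r d _ hm, proj_proj' h]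
    split_ifs <;> simp

theorem P_comm (q r : ℕ) (c d : Fin n → ℤ) (v : V) :
    P S q c (P S r d v) = P S r d (P S q c v) := by
  rcases le_total q r with h | h
  · rw [P_P S h, P_P' S h]
  · rw [P_P S h, P_P' S h]

theorem P_idem (q : ℕ) (c : Fin n → ℤ) (v : V) : P S q c (P S q c v) = P S q c v := by
  classical
  rw [P_P S le_rfl, if_pos (Cong.refl p q c)]

/-- representatives of the exponents modulo `p^q` -/
noncomputable def reps (p : ℕ) (n q : ℕ) : Finset (Fin n → ℤ) :=
  Fintype.piFinset fun _ => Finset.Ico (0 : ℤ) ((p : ℤ) ^ q)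

omit [CharP k p] in
theorem sum_proj (q : ℕ) (f : Torus k n) : ∑ c ∈ reps p n q, proj k p q c f = f := by
  classical
  ext a
  rw [AddMonoidAlgebra.coeff_sum, Finsupp.finsetSum_apply]
  simp only [coeff_proj]
  have hpos : (0 : ℤ) < (p : ℤ) ^ q := pow_pos (by exact_mod_cast hp.out.pos) q
  rw [Finset.sum_eq_single (fun i => a i % ((p : ℤ) ^ q))]
  · rw [if_pos]
    intro i
    exact Int.dvd_self_sub_emod
  · intro c hc hne
    rw [if_neg]
    intro hcong
    apply hne
    funext i
    have hci := Finset.mem_Ico.mp (Fintype.mem_piFinset.mp hc i)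
    have h1 := hcong i
    have h2 : a i % ((p : ℤ) ^ q) = c i % ((p : ℤ) ^ q) :=
      (Int.modEq_iff_dvd.mpr h1).symm
    rw [h2, Int.emod_eq_of_lt hci.1 hci.2]
  · intro hno
    exfalso
    apply hno
    rw [reps, Fintype.mem_piFinset]
    intro i
    rw [Finset.mem_Ico]
    exact ⟨Int.emod_nonneg _ hpos.ne', Int.emod_lt_of_pos _ hpos⟩

theorem sum_P (q : ℕ) (v : V) : ∑ c ∈ reps p n q, P S q c v = v := by
  induction v using induction_level S q with
  | h0 => simp
  | hadd x y hx hy =>
    simp only [map_add, Finset.sum_add_distrib, hx, hy]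
  | hsmul f m hm =>
    have : ∀ c, P S q c (f • m) = proj k p q c f • m := fun c => P_smul S q c f hm
    simp only [this]
    rw [← Finset.sum_smul, sum_proj]

omit hp [CharP k p] in
theorem proj_mon (q : ℕ) (c : Fin n → ℤ) : proj k p q c (mon k c) = mon k c := by
  have h := proj_mon_mul (k := k) p q c c 1
  rw [mul_one, sub_self, proj_zero_one, mul_one] at h
  exact h

theorem P_eq_of_mem (q : ℕ) (c : Fin n → ℤ) {m : V} (hm : m ∈ S.F q) :
    P S q c (mon k c • m) = mon k c • m := by
  rw [P_smul S q c _ hm, proj_mon]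

theorem P_zero_of_mem (q : ℕ) {m : V} (hm : m ∈ S.F q) : P S q 0 m = m := by
  have h := P_eq_of_mem S q 0 hm
  rwa [mon_zero, one_smul] at h

variable [IsAlgClosed k]

theorem mem_F_of_P {q : ℕ} {v : V} (h : P S q 0 v = v) : v ∈ S.F q := by
  classical
  obtain ⟨d, e, ξ, he, hξ, hsum⟩ := S.dual q
  rw [← h, ← hsum v, map_sum]
  apply AddSubgroup.sum_mem
  intro i _
  rw [P_smul S q 0 _ (he i)]
  obtain ⟨c, hc⟩ := isPow_of_proj (n := n) (k := k) p (q := q)
    (f := proj k p q 0 (ξ i v)) (by rw [proj_proj le_rfl, if_pos (Cong.refl p q 0)])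
  rw [← hc]
  exact S.pow_smul q c _ (he i)

theorem exists_of_P {q : ℕ} {c : Fin n → ℤ} {v : V} (h : P S q c v = v) :
    ∃ m ∈ S.F q, v = mon k c • m := by
  refine ⟨mon k (-c) • v, ?_, ?_⟩
  · apply mem_F_of_P
    rw [P_mon_smul, sub_neg_eq_add, zero_add, h]
  · rw [smul_smul, mon_mul_mon, add_neg_cancel, mon_zero, one_smul]

end Grading

section Span

variable {p : ℕ} [hp : Fact p.Prime] {k : Type*} [Field k] [CharP k p] {n : ℕ}
  {V : Type*} [AddCommGroup V] [Module (Torus k n) V] (S : FDiv p (Torus k n) V)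

/-- the homogeneous elements of degree `γ` (a point of `Z_p^n`, given by a sequence) -/
def Vg (γ : ℕ → Fin n → ℤ) : Set V := {v | ∀ q, P S q (γ q) v = v}

variable [Module k V] [IsScalarTower k (Torus k n) V]

theorem P_ksmul (q : ℕ) (c : Fin n → ℤ) (r : k) (v : V) :
    P S q c (r • v) = r • P S q c v := by
  rw [← algebraMap_smul (Torus k n) r v, P_scalar_smul, algebraMap_smul]

/-- `P` as a `k`-linear map -/
noncomputable def Pk (q : ℕ) (c : Fin n → ℤ) : V →ₗ[k] V where
  toFun := P S q c
  map_add' := map_add _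
  map_smul' := fun r v => P_ksmul S q c r v

theorem decomp : ∀ (d : ℕ) (W : Submodule k V) [FiniteDimensional k W], Module.finrank k W = d →
    (∀ q c, ∀ w ∈ W, P S q c w ∈ W) → W ≤ Submodule.span k (⋃ γ, Vg S γ) := by
  intro d
  induction d using Nat.strong_induction_on with
  | _ d ih =>
    intro W _ hd hst
    by_cases hA : ∀ q, ∃ c : Fin n → ℤ, ∀ w ∈ W, P S q c w = w
    · choose γ hγ using hA
      intro w hw
      exact Submodule.subset_span (Set.mem_iUnion.mpr ⟨γ, fun q => hγ q w hw⟩)
    · push Not at hA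
      obtain ⟨q, hq⟩ := hA
      intro w hw
      rw [← sum_P S q w]
      apply Submodule.sum_mem
      intro c _
      have hle : W.map (Pk S q c) ≤ W := by
        rintro _ ⟨x, hx, rfl⟩
        exact hst q c x hx
      have hne : W.map (Pk S q c) ≠ W := by
        intro heq
        obtain ⟨x, hx, hxne⟩ := hq c
        rw [← heq] at hx
        obtain ⟨y, _, rfl⟩ := hx
        exact hxne (P_idem S q c y)
      have hlt : W.map (Pk S q c) < W := lt_of_le_of_ne hle hne
      have hfin : FiniteDimensional k (W.map (Pk S q c)) := inferInstance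
      have hfr := Submodule.finrank_lt_finrank_of_lt hlt
      rw [hd] at hfr
      refine ih _ hfr (W.map (Pk S q c)) rfl ?_ ⟨w, hw, rfl⟩
      rintro r e _ ⟨x, hx, rfl⟩
      refine ⟨P S r e x, hst r e x hx, ?_⟩
      exact P_comm S q r c e x

end Span

end FD
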