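import Mathlib

/-!
# F-divided bundles on affine schemes in characteristic `p` and regular singularity on tori

A stratified bundle on a smooth variety over a perfect field of characteristic `p` is the same as an
F-divided bundle (Katz). In the affine case: a vector bundle `M` over `B` with a decreasing sequence
`M = F 0 ⊃ F 1 ⊃ ...`, where `F q` is a vector bundle over the subring `B^(p^q)` of `p^q`-th powers
with `B ⊗ F q = M`.
-/

set_option autoImplicit false

namespace FD

/-- `b` is a `p^q`-th power, i.e. it lies in the subring `B^(p^q)`. -/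
def IsPow {B : Type*} [CommRing B] (p q : ℕ) (b : B) : Prop := ∃ c : B, c ^ p ^ q = b

/-- An F-divided structure on the `B`-module `M` (`B` of characteristic `p`): a decreasing sequence of
subgroups `F q`, stable under the ring `B^(p^q)` of `p^q`-th powers, `F 0 = M`, such that for each
`q` there are `e_i ∈ F q` and `B`-linear forms `ξ_i` on `M` with `ξ_i (F q) ⊂ B^(p^q)` and
`m = ∑ ξ_i(m) e_i` for all `m`. (Dual bases: the last condition says that `F q` is a finitely
generated projective `B^(p^q)`-module and that `B ⊗ F q → M` is an isomorphism, the tensor product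
being over `B^(p^q)`.) Moreover `F (q + 1)` generates the `B^(p^q)`-module `F q`. (So the `F q` are the
vector bundles `E_q` of an F-divided bundle `E_0 = M`, `E_q = Frob^* E_(q+1)`.) -/
structure FDiv (p : ℕ) (B : Type*) [CommRing B] (M : Type*) [AddCommGroup M] [Module B M] where
  /-- the subgroups -/
  F : ℕ → AddSubgroup M
  zero : F 0 = ⊤
  anti : ∀ q, F (q + 1) ≤ F q
  pow_smul : ∀ (q : ℕ) (c : B) (m : M), m ∈ F q → c ^ p ^ q • m ∈ F q
  dual : ∀ q, ∃ (d : ℕ) (e : Fin d → M) (ξ : Fin d → (M →ₗ[B] B)), (∀ i, e i ∈ F q) ∧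
    (∀ i, ∀ m ∈ F q, IsPow p q (ξ i m)) ∧ ∀ m, ∑ i, ξ i m • e i = m
  gen : ∀ q, ∀ m ∈ F q, m ∈ AddSubgroup.closure {x | ∃ (c : B) (m' : M), m' ∈ F (q + 1) ∧
    x = c ^ p ^ q • m'}

/-- Morphisms of F-divided bundles. -/
def IsHor {p : ℕ} {B M M' : Type*} [CommRing B] [AddCommGroup M] [Module B M] [AddCommGroup M']
    [Module B M'] (S : FDiv p B M) (S' : FDiv p B M') (u : M →ₗ[B] M') : Prop :=
  ∀ q, ∀ m ∈ S.F q, u m ∈ S'.F q

/-- `(N, T)` is, by means of `ι : M → N`, the pull-back of `(M, S)` along `A → B`: `N = B ⊗_A M` and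
`T.F q` is generated over `B^(p^q)` by the image of `S.F q`. -/
def IsPull {p : ℕ} {A B M N : Type*} [CommRing A] [CommRing B] [Algebra A B] [AddCommGroup M]
    [Module A M] [AddCommGroup N] [Module B N] [Module A N] [IsScalarTower A B N]
    (S : FDiv p A M) (T : FDiv p B N) (ι : M →ₗ[A] N) : Prop :=
  IsBaseChange B ι ∧ ∀ q, T.F q = AddSubgroup.closure {x | ∃ (c : B) (m : M), m ∈ S.F q ∧
    x = c ^ p ^ q • ι m}

/-- The coordinate ring `k[x_1^±1, ..., x_n^±1]` of the torus `G_m^n`. -/
abbrev Torus (k : Type*) [CommRing k] (n : ℕ) : Type _ := AddMonoidAlgebra k (Fin n → ℤ)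

/-- The monomial `x^a`. -/
noncomputable def mon (k : Type*) [CommRing k] {n : ℕ} (a : Fin n → ℤ) : Torus k n :=
  AddMonoidAlgebra.single a 1

/-- For `ε = 1` or `-1`: the Laurent polynomials whose exponents `a` satisfy `ε a_i ≥ 0`. This is
the coordinate ring of the partial compactification of `G_m^n` by one divisor `D`, `x_i = 0` for
`ε = 1` and `x_i = ∞` for `ε = -1` (the boundary divisors of `(P^1)^n`). -/
def chart (k : Type*) [CommRing k] {n : ℕ} (i : Fin n) (ε : ℤˣ) : Subalgebra k (Torus k n) where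
  carrier := {f | ∀ a, f.coeff a ≠ 0 → 0 ≤ (ε : ℤ) * a i}
  mul_mem' := by
    classical
    intro f g hf hg a ha
    have h1 : a ∈ (f * g).coeff.support := Finsupp.mem_support_iff.mpr ha
    obtain ⟨b, hb, c, hc, rfl⟩ := Finset.mem_add.mp (AddMonoidAlgebra.support_coeff_mul_subset f g h1)
    have h2 := hf b (Finsupp.mem_support_iff.mp hb)
    have h3 := hg c (Finsupp.mem_support_iff.mp hc)
    rw [Pi.add_apply, mul_add]
    exact add_nonneg h2 h3
  add_mem' := by
    intro f g hf hg a ha
    by_cases h : f.coeff a = 0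
    · apply hg a
      intro h'
      apply ha
      rw [AddMonoidAlgebra.coeff_add, Finsupp.add_apply, h, h', add_zero]
    · exact hf a h
  algebraMap_mem' := by
    intro r a ha
    rw [AddMonoidAlgebra.coe_algebraMap] at ha
    have : a = 0 := by
      by_contra hne
      apply ha
      simp [Ne.symm hne]
    rw [this]
    simp

/-- The equation `x_i^ε` of the divisor `D`. -/
noncomputable def eqn (k : Type*) [CommRing k] {n : ℕ} (i : Fin n) (ε : ℤˣ) : Torus k n :=
  mon k (Pi.single i (ε : ℤ))

/-- `Q` is a differential operator of level `q` on `G_m^n` (an additive map that is linear over the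
`p^q`-th powers; every differential operator is of this kind for large `q`) which is logarithmic along
the divisor `D`: it maps all powers of the ideal of `D` into themselves. -/
def IsLogOp (p : ℕ) {k : Type*} [CommRing k] {n : ℕ} (q : ℕ) (i : Fin n) (ε : ℤˣ)
    (Q : Torus k n →+ Torus k n) : Prop :=
  (∀ c f, Q (c ^ p ^ q * f) = c ^ p ^ q * Q f) ∧
    ∀ (l : ℕ) (f : Torus k n), f ∈ chart k i ε →
      ∃ g ∈ chart k i ε, Q (eqn k i ε ^ l * f) = eqn k i ε ^ l * g

/-- `Q'` is the action of the operator `Q` of level `q` on the F-divided bundle `V`: `Q ⊗ 1` on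
`V = B ⊗ F q`. -/
def IsInduced {p : ℕ} {B V : Type*} [CommRing B] [AddCommGroup V] [Module B V] (S : FDiv p B V)
    (q : ℕ) (Q : B →+ B) (Q' : V →+ V) : Prop :=
  ∀ (f : B) (m : V), m ∈ S.F q → Q' (f • m) = Q f • m

/-- The F-divided bundle `V` on `G_m^n` is regular singular along the `2 n` boundary divisors of
`(P^1)^n`: for each of them `V` has an extension to a finitely generated module `N` on the partial
compactification which is stable under the logarithmic differential operators. -/
def RegularTorus {p : ℕ} {k : Type*} [CommRing k] {n : ℕ} {V : Type*} [AddCommGroup V]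
    [Module (Torus k n) V] (S : FDiv p (Torus k n) V) : Prop :=
  ∀ (i : Fin n) (ε : ℤˣ), ∃ N : Submodule (chart k i ε) V, N.FG ∧
    Submodule.span (Torus k n) (N : Set V) = ⊤ ∧
    ∀ (q : ℕ) (Q : Torus k n →+ Torus k n) (Q' : V →+ V), IsLogOp p q i ε Q →
      IsInduced S q Q Q' → ∀ v ∈ N, Q' v ∈ N

/-- An F-divided bundle on `Spec B`, where `Spec B` contains the torus `G_m^n` as an open subscheme, is
regular singular if its restriction to the torus is regular singular. -/
def Regular {p : ℕ} (k : Type*) [Field k] (n : ℕ) {B M : Type*} [CommRing B] [AddCommGroup M]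
    [Module B M] [Algebra B (Torus k n)] (S : FDiv p B M) : Prop :=
  ∃ T : FDiv p (Torus k n) (TensorProduct B (Torus k n) M),
    IsPull S T (TensorProduct.mk B (Torus k n) M 1) ∧ RegularTorus T

/-- the map `A^* → B^*` -/
abbrev um (A B : Type*) [CommRing A] [CommRing B] [Algebra A B] : Aˣ →* Bˣ :=
  Units.map (algebraMap A B).toMonoidHom

/-- `A^*/(A^*)^ℓ → B^*/(B^*)^ℓ` is injective and surjective for all prime numbers `ℓ ≠ p`. -/
def UnitsCond (p : ℕ) (A B : Type*) [CommRing A] [CommRing B] [Algebra A B] : Prop :=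
  ∀ ℓ : ℕ, ℓ.Prime → ℓ ≠ p →
    (∀ a : Aˣ, (∃ b : Bˣ, um A B a = b ^ ℓ) → ∃ a' : Aˣ, a = a' ^ ℓ) ∧
    ∀ b : Bˣ, ∃ (a : Aˣ) (b' : Bˣ), b = um A B a * b' ^ ℓ

end FD
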