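import Pool.Agent.Lib.FD.Units

set_option autoImplicit false

namespace FD

open Finset TensorProduct

section Diag

variable {p : ℕ} [hp : Fact p.Prime] {B : Type*} [CommRing B] [CharP B p]
  {M : Type*} [AddCommGroup M] [Module B M]

omit hp [CharP B p] in
theorem IsPow.mul {q : ℕ} {x y : B} (hx : IsPow p q x) (hy : IsPow p q y) : IsPow p q (x * y) := by
  obtain ⟨a, rfl⟩ := hx
  obtain ⟨b, rfl⟩ := hy
  exact ⟨a * b, mul_pow _ _ _⟩

theorem IsPow.neg {q : ℕ} {x : B} (hx : IsPow p q x) : IsPow p q (-x) := by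
  obtain ⟨a, rfl⟩ := hx
  refine ⟨-a, ?_⟩
  have h := map_neg (iterateFrobenius B p q) a
  simpa only [iterateFrobenius_def] using h

/-- the diagonal F-divided bundle -/
def diagFDiv {d : ℕ} (b : Module.Basis (Fin d) B M) (u : Fin d → ℕ → Bˣ)
    (hu : ∀ i, Coh p (u i)) : FDiv p B M where
  F q :=
    { carrier := {m | ∀ i, IsPow p q ((u i q : B) * b.repr m i)}
      zero_mem' := fun i => ⟨0, by
        rw [map_zero, Finsupp.zero_apply, mul_zero, zero_pow (pow_ne_zero _ hp.out.ne_zero)]⟩
      add_mem' := fun {x y} hx hy i => by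
        rw [map_add, Finsupp.add_apply, mul_add]
        exact (hx i).add (p := p) (hy i)
      neg_mem' := fun {x} hx i => by
        rw [map_neg, Finsupp.neg_apply, mul_neg]
        exact (hx i).neg }
  zero := by
    ext m
    simp only [AddSubgroup.mem_mk, AddSubgroup.mem_top, iff_true]
    exact fun i => ⟨_, by rw [pow_zero, pow_one]⟩
  anti q m hm i := by
    obtain ⟨c, hc⟩ := hu i q
    obtain ⟨x, hx⟩ := hm i
    refine ⟨x ^ p * ↑c⁻¹, ?_⟩
    rw [mul_pow, ← pow_mul, ← pow_succ', hx, hc, Units.val_mul, Units.val_pow_eq_pow_val]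
    have : (c : B) ^ p ^ q * (↑c⁻¹ : B) ^ p ^ q = 1 := by
      rw [← mul_pow, Units.mul_inv, one_pow]
    linear_combination (↑(u i q) * (b.repr m) i) * this
  pow_smul q c m hm i := by
    rw [map_smul, Finsupp.smul_apply, smul_eq_mul, mul_left_comm]
    exact IsPow.mul ⟨c, rfl⟩ (hm i)
  dual q := by
    classical
    refine ⟨d, fun i => (↑(u i q)⁻¹ : B) • b i, fun i => (u i q : B) • b.coord i, ?_, ?_, ?_⟩
    · intro i l
      rw [map_smul, Finsupp.smul_apply, Module.Basis.repr_self]
      by_cases h : i = l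
      · subst h
        rw [Finsupp.single_eq_same, smul_eq_mul, mul_one, Units.mul_inv]
        exact ⟨1, one_pow _⟩
      · rw [Finsupp.single_eq_of_ne (Ne.symm h), smul_zero, mul_zero]
        exact ⟨0, zero_pow (pow_ne_zero _ hp.out.ne_zero)⟩
    · intro i m hm
      exact hm i
    · intro m
      conv_rhs => rw [← b.sum_repr m]
      apply Finset.sum_congr rfl
      intro i _
      rw [LinearMap.smul_apply, Module.Basis.coord_apply, smul_eq_mul, smul_smul,
        mul_right_comm, Units.mul_inv, one_mul]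
  gen q m hm := by
    classical
    rw [← b.sum_repr m]
    apply AddSubgroup.sum_mem
    intro i _
    obtain ⟨c, hc⟩ := hu i q
    obtain ⟨z, hz⟩ := hm i
    apply AddSubgroup.subset_closure
    refine ⟨z * c, (↑(u i (q + 1))⁻¹ : B) • b i, ?_, ?_⟩
    · intro l
      rw [map_smul, Finsupp.smul_apply, Module.Basis.repr_self]
      by_cases h : i = l
      · subst h
        rw [Finsupp.single_eq_same, smul_eq_mul, mul_one, Units.mul_inv]
        exact ⟨1, one_pow _⟩
      · rw [Finsupp.single_eq_of_ne (Ne.symm h), smul_zero, mul_zero]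
        exact ⟨0, zero_pow (pow_ne_zero _ hp.out.ne_zero)⟩
    · rw [smul_smul]
      congr 1
      have h1 : (u i (q + 1) : B) = u i q * (c : B) ^ p ^ q := by
        rw [hc, Units.val_mul, Units.val_pow_eq_pow_val]
      have h2 : (u i (q + 1) : B) * ↑(u i (q + 1))⁻¹ = 1 := Units.mul_inv _
      calc (b.repr m) i = (b.repr m) i * ((u i (q + 1) : B) * ↑(u i (q + 1))⁻¹) := by
            rw [h2, mul_one]
        _ = (u i q * (b.repr m) i) * (c : B) ^ p ^ q * ↑(u i (q + 1))⁻¹ := by rw [h1]; ring
        _ = (z * ↑c) ^ p ^ q * ↑(u i (q + 1))⁻¹ := by rw [← hz, mul_pow]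

theorem isDiag_diagFDiv {d : ℕ} (b : Module.Basis (Fin d) B M) (u : Fin d → ℕ → Bˣ)
    (hu : ∀ i, Coh p (u i)) : IsDiag (diagFDiv b u hu) b u := fun _ _ => Iff.rfl

omit hp [CharP B p] in
theorem Coh.map {A : Type*} [CommRing A] (f : A →+* B) {u : ℕ → Aˣ} (hu : Coh p u) :
    Coh p fun q => Units.map f.toMonoidHom (u q) := by
  intro q
  obtain ⟨c, hc⟩ := hu q
  refine ⟨Units.map f.toMonoidHom c, ?_⟩
  show Units.map f.toMonoidHom (u (q + 1)) = Units.map f.toMonoidHom (u q) * _
  rw [hc, map_mul, map_pow]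

omit hp [CharP B p] in
theorem isPull_of_diag {A : Type*} [CommRing A] [Algebra A B] {N : Type*} [AddCommGroup N]
    [Module A N] [Module B N] [IsScalarTower A B N] {M' : Type*} [AddCommGroup M']
    [Module A M'] {S : FDiv p A M'} {T : FDiv p B N} {ι : M' →ₗ[A] N} {d : ℕ}
    {b : Module.Basis (Fin d) A M'} {b' : Module.Basis (Fin d) B N} {u : Fin d → ℕ → Aˣ}
    {w : Fin d → ℕ → Bˣ} {β : Fin d → Bˣ} (hS : IsDiag S b u) (hT : IsDiag T b' w)
    (hp0 : p ≠ 0)
    (hι : ∀ i, ι (b i) = (β i : B) • b' i)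
    (hr : ∀ i q, ∃ c : Bˣ, w i q * β i = Units.map (algebraMap A B).toMonoidHom (u i q) *
      c ^ p ^ q) : IsPull S T ι := by
  classical
  have hQ : ∀ q, p ^ q ≠ 0 := fun q => pow_ne_zero _ hp0
  refine ⟨?_, ?_⟩
  · refine IsBaseChange.of_equiv ((b.baseChange B).equiv (b'.unitsSMul β) (Equiv.refl _)) ?_
    intro x
    rw [← b.sum_repr x]
    simp only [tmul_sum, map_sum, tmul_smul, map_smul]
    apply Finset.sum_congr rfl
    intro i _
    have h1 : (1 : B) ⊗ₜ[A] b i = b.baseChange B i := by
      rw [Module.Basis.baseChange_apply]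
    have h2 : (b.repr x i) • (1 : B) ⊗ₜ[A] b i = algebraMap A B (b.repr x i) • (1 : B) ⊗ₜ[A] b i := by
      rw [algebraMap_smul]
    rw [h2, map_smul, h1, Module.Basis.equiv_apply, Equiv.refl_apply,
      Module.Basis.unitsSMul_apply, hι, algebraMap_smul]
    rfl
  · intro q
    apply le_antisymm
    · intro x hx
      have hx' := (hT q x).mp hx
      rw [← b'.sum_repr x]
      apply AddSubgroup.sum_mem
      intro i _
      obtain ⟨z, hz⟩ := hx' i
      obtain ⟨c, hc⟩ := hr i q
      apply AddSubgroup.subset_closure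
      refine ⟨z * ↑c⁻¹, (↑(u i q)⁻¹ : A) • b i, ?_, ?_⟩
      · rw [hS q]
        intro l
        rw [map_smul, Finsupp.smul_apply, Module.Basis.repr_self]
        by_cases h : i = l
        · subst h
          rw [Finsupp.single_eq_same, smul_eq_mul, mul_one, Units.mul_inv]
          exact ⟨1, one_pow _⟩
        · rw [Finsupp.single_eq_of_ne (Ne.symm h), smul_zero, mul_zero]
          exact ⟨0, zero_pow (hQ q)⟩
      · rw [map_smul, hι, ← algebraMap_smul B (↑(u i q)⁻¹ : A), smul_smul, smul_smul]
        congr 1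
        have h1 : ((u i q)⁻¹ * u i q : Aˣ) = 1 := inv_mul_cancel _
        have h2 : algebraMap A B ↑(u i q)⁻¹ * algebraMap A B (u i q : A) = 1 := by
          rw [← map_mul, Units.inv_mul, map_one]
        have h3 : (w i q : B) * β i = algebraMap A B (u i q) * (c : B) ^ p ^ q := by
          have := congrArg (fun x : Bˣ => (x : B)) hc
          simpa using this
        have h4 : (↑c⁻¹ : B) ^ p ^ q * (c : B) ^ p ^ q = 1 := by
          rw [← mul_pow, Units.inv_mul, one_pow]
        rw [mul_pow, hz]
        calc (b'.repr x) i = (b'.repr x i) * ((↑c⁻¹ : B) ^ p ^ q * (c : B) ^ p ^ q) *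
              (algebraMap A B ↑(u i q)⁻¹ * algebraMap A B (u i q : A)) := by
              rw [h4, h2, mul_one, mul_one]
          _ = (b'.repr x i) * (↑c⁻¹ : B) ^ p ^ q * algebraMap A B ↑(u i q)⁻¹ *
              (algebraMap A B (u i q) * (c : B) ^ p ^ q) := by ring
          _ = (b'.repr x i) * (↑c⁻¹ : B) ^ p ^ q * algebraMap A B ↑(u i q)⁻¹ *
              ((w i q : B) * β i) := by rw [h3]
          _ = _ := by ring
    · rw [AddSubgroup.closure_le]
      rintro x ⟨c, m, hm, rfl⟩
      show _ ∈ T.F q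
      apply T.pow_smul
      rw [hT q]
      intro i
      have hm' := (hS q m).mp hm i
      obtain ⟨z, hz⟩ := hm'
      obtain ⟨c, hc⟩ := hr i q
      have h1 : b'.repr (ι m) i = algebraMap A B (b.repr m i) * β i := by
        conv_lhs => rw [← b.sum_repr m]
        simp only [map_sum, map_smul, hι, Finsupp.coe_finsetSum, Finset.sum_apply]
        rw [Finset.sum_eq_single i]
        · rw [← algebraMap_smul B (b.repr m i), smul_smul, map_smul, Finsupp.smul_apply,
            Module.Basis.repr_self, Finsupp.single_eq_same, smul_eq_mul, mul_one]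
        · intro l _ hl
          rw [← algebraMap_smul B (b.repr m l), smul_smul, map_smul, Finsupp.smul_apply,
            Module.Basis.repr_self, Finsupp.single_eq_of_ne (Ne.symm hl), smul_zero]
        · simp
      have h3 : (w i q : B) * β i = algebraMap A B (u i q) * (c : B) ^ p ^ q := by
        have := congrArg (fun x : Bˣ => (x : B)) hc
        simpa using this
      refine ⟨algebraMap A B z * c, ?_⟩
      rw [mul_pow, ← map_pow, hz, map_mul, h1]
      linear_combination (-(algebraMap A B (b.repr m i))) * h3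

/-- the pull-back of a diagonal F-divided bundle is diagonal -/
theorem IsPull.isDiag {A : Type*} [CommRing A] [Algebra A B] {N : Type*} [AddCommGroup N]
    [Module A N] [Module B N] [IsScalarTower A B N] {M' : Type*} [AddCommGroup M']
    [Module A M'] {S : FDiv p A M'} {T : FDiv p B N} {ι : M' →ₗ[A] N} {d : ℕ}
    {b : Module.Basis (Fin d) A M'} {u : Fin d → ℕ → Aˣ} (h : IsPull S T ι)
    (hu : ∀ i, Coh p (u i)) (hS : IsDiag S b u) :
    IsDiag T (h.1.basis b) fun i q => Units.map (algebraMap A B).toMonoidHom (u i q) := by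
  have h1 : IsPull S (diagFDiv (h.1.basis b)
      (fun i q => Units.map (algebraMap A B).toMonoidHom (u i q))
      fun i => (hu i).map (algebraMap A B)) ι := by
    refine isPull_of_diag (β := fun _ => 1) hS (isDiag_diagFDiv _ _ _) hp.out.ne_zero ?_ ?_
    · intro i
      rw [h.1.basis_apply, Units.val_one, one_smul]
    · exact fun i q => ⟨1, by rw [mul_one, one_pow, mul_one]⟩
  intro q m
  rw [h.2 q, ← h1.2 q]
  rfl

end Diag

end FD
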