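import Pool.Agent.Lib.FD.UnitsMap

set_option autoImplicit false

namespace FD

open Finset

section UM

variable {p : ℕ} [hp : Fact p.Prime] {k : Type*} [Field k] [CharP k p] [IsAlgClosed k] {m n : ℕ}
  {A : Type*} [CommRing A] [Algebra k A] [Algebra A (Torus k m)] [IsScalarTower k A (Torus k m)]
  (hA : Function.Injective (algebraMap A (Torus k m)))
  {B : Type*} [CommRing B] [Algebra k B] [Algebra B (Torus k n)] [IsScalarTower k B (Torus k n)]
  (hB : Function.Injective (algebraMap B (Torus k n)))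
  [Algebra A B] [IsScalarTower k A B] (hφ : UnitsCond p A B)

omit [IsAlgClosed k] hp [CharP k p] in
theorem constU (c : k) (hc : c ≠ 0) (B : Type*) [CommRing B] [Algebra k B] :
    ∃ b : Bˣ, (b : B) = algebraMap k B c :=
  ⟨(Units.map (algebraMap k B).toMonoidHom (Units.mk0 c hc)), rfl⟩

include hB hφ in
omit [CharP k p] [IsAlgClosed k] in
theorem exists_s : ∃ s : ℕ, ∀ b : Bˣ, ∃ a : Aˣ, b ^ p ^ s = um A B a := by
  let Y : AddSubgroup (Fin n → ℤ) :=
    { carrier := {y | ∃ b : Bˣ, exB k n b = y}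
      zero_mem' := ⟨1, exB_one⟩
      add_mem' := by
        rintro _ _ ⟨b, rfl⟩ ⟨c, rfl⟩
        exact ⟨b * c, exB_mul b c⟩
      neg_mem' := by
        rintro _ ⟨b, rfl⟩
        exact ⟨b⁻¹, exB_inv b⟩ }
  let Z : AddSubgroup (Fin n → ℤ) :=
    { carrier := {y | ∃ a : Aˣ, exB k n (um A B a) = y}
      zero_mem' := ⟨1, by rw [map_one, exB_one]⟩
      add_mem' := by
        rintro _ _ ⟨b, rfl⟩ ⟨c, rfl⟩
        exact ⟨b * c, by rw [map_mul, exB_mul]⟩
      neg_mem' := by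
        rintro _ ⟨b, rfl⟩
        exact ⟨b⁻¹, by rw [map_inv, exB_inv]⟩ }
  obtain ⟨s, hs⟩ := cok hp.out Z Y (by
    rintro ℓ hℓ hℓp _ ⟨b, rfl⟩
    obtain ⟨a, b', rfl⟩ := (hφ ℓ hℓ hℓp).2 b
    exact ⟨_, ⟨a, rfl⟩, _, ⟨b', rfl⟩, by rw [exB_mul, exB_pow]⟩)
  refine ⟨s, fun b => ?_⟩
  obtain ⟨a, ha⟩ := hs _ ⟨b, rfl⟩
  have h1 : exB k n (b ^ p ^ s * (um A B a)⁻¹) = 0 := by
    rw [exB_mul, exB_pow, exB_inv, ha, add_neg_cancel]
  obtain ⟨c, hc, hcc⟩ := (exB_zero_iff hB _).mp h1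
  obtain ⟨c', hc'⟩ := constU c hc A
  refine ⟨a * c', ?_⟩
  have h2 : um A B c' = b ^ p ^ s * (um A B a)⁻¹ := by
    ext
    rw [hcc]
    show algebraMap A B (c' : A) = _
    rw [hc', ← IsScalarTower.algebraMap_apply]
  rw [map_mul, h2, mul_comm, mul_assoc, inv_mul_cancel, mul_one]

include hA hB hφ in
theorem um_inj {a : Aˣ} (ha : um A B a = 1) : a = 1 := by
  obtain ⟨ℓ, hℓ, hℓp⟩ := exists_prime_ne p
  let K : AddSubgroup (Fin m → ℤ) :=
    { carrier := {x | ∃ a : Aˣ, exB k n (um A B a) = 0 ∧ exB k m a = x}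
      zero_mem' := ⟨1, by rw [map_one, exB_one], exB_one⟩
      add_mem' := by
        rintro _ _ ⟨b, hb, rfl⟩ ⟨c, hc, rfl⟩
        exact ⟨b * c, by rw [map_mul, exB_mul, hb, hc, add_zero], exB_mul b c⟩
      neg_mem' := by
        rintro _ ⟨b, hb, rfl⟩
        exact ⟨b⁻¹, by rw [map_inv, exB_inv, hb, neg_zero], exB_inv b⟩ }
  obtain ⟨r, hr, hrK⟩ := nak ⊥ K (ℓ := ℓ) (by
    rintro _ ⟨a, ha, rfl⟩
    obtain ⟨c, hc, hcc⟩ := (exB_zero_iff hB _).mp ha
    obtain ⟨c', hc'⟩ := IsAlgClosed.exists_pow_nat_eq c hℓ.pos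
    have hc0 : c' ≠ 0 := by
      rintro rfl
      rw [zero_pow hℓ.ne_zero] at hc'
      exact hc hc'.symm
    obtain ⟨b, hb⟩ := constU c' hc0 B
    obtain ⟨a', ha'⟩ := (hφ ℓ hℓ hℓp).1 a ⟨b, by
      ext
      rw [hcc, Units.val_pow_eq_pow_val, hb, ← map_pow, hc']⟩
    refine ⟨0, zero_mem _, exB k m a', ⟨a', ?_, rfl⟩, ?_⟩
    · rw [ha', map_pow, exB_pow] at ha
      exact (smul_eq_zero.mp ha).resolve_left hℓ.ne_zero
    · rw [zero_add, ha', exB_pow])
  have hr0 := ne_zero_of_dvd hℓ hr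
  have h1 := hrK (exB k m a) ⟨a, by rw [ha, exB_one], rfl⟩
  rw [AddSubgroup.mem_bot] at h1
  have h2 := (smul_eq_zero.mp h1).resolve_left hr0
  obtain ⟨c, hc, hcc⟩ := (exB_zero_iff hA a).mp h2
  have h3 : algebraMap k B c = 1 := by
    have h4 := congrArg (fun x : Bˣ => (x : B)) ha
    have h5 : ((um A B a : Bˣ) : B) = algebraMap A B (a : A) := rfl
    simp only [h5, hcc, Units.val_one] at h4
    rwa [← IsScalarTower.algebraMap_apply] at h4
  have hBnt : Nontrivial B := (algebraMap B (Torus k n)).domain_nontrivial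
  have h6 : c = 1 := (algebraMap k B).injective (by rw [h3, map_one])
  ext
  rw [hcc, h6, map_one, Units.val_one]

include hA hB hφ in
theorem um_inj' {a a' : Aˣ} (h : um A B a = um A B a') : a = a' := by
  have := um_inj hA hB hφ (a := a * a'⁻¹) (by rw [map_mul, map_inv, h, mul_inv_cancel])
  exact mul_inv_eq_one.mp this

end UM

section Seq

variable {p : ℕ}

theorem Coh.le {B : Type*} [CommRing B] {w : ℕ → Bˣ} (hw : Coh p w) {q r : ℕ} (h : q ≤ r) :
    ∃ c : Bˣ, w r = w q * c ^ p ^ q := by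
  induction r, h using Nat.le_induction with
  | base => exact ⟨1, by rw [one_pow, mul_one]⟩
  | succ r hqr ih =>
    obtain ⟨c, hc⟩ := ih
    obtain ⟨c', hc'⟩ := hw r
    refine ⟨c * c' ^ p ^ (r - q), ?_⟩
    rw [hc', hc, mul_pow, mul_assoc, ← pow_mul, ← pow_add, Nat.sub_add_cancel hqr]

theorem Coh.mul {B : Type*} [CommRing B] {v w : ℕ → Bˣ} (hv : Coh p v) (hw : Coh p w) :
    Coh p fun q => v q * w q := by
  intro q
  obtain ⟨c, hc⟩ := hv q
  obtain ⟨c', hc'⟩ := hw q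
  refine ⟨c * c', ?_⟩
  show v (q + 1) * w (q + 1) = v q * w q * _
  rw [hc, hc', mul_pow]
  exact mul_mul_mul_comm _ _ _ _

theorem Coh.inv {B : Type*} [CommRing B] {v : ℕ → Bˣ} (hv : Coh p v) :
    Coh p fun q => (v q)⁻¹ := by
  intro q
  obtain ⟨c, hc⟩ := hv q
  refine ⟨c⁻¹, ?_⟩
  show (v (q + 1))⁻¹ = (v q)⁻¹ * _
  rw [hc, mul_inv, inv_pow]

/-- an element which is a `p^q`-th power up to units for all `q` is a unit -/
theorem isUnit_of_pow [hp : Fact p.Prime] {B : Type*} [CommRing B] [IsDomain B]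
    [UniqueFactorizationMonoid B] {w : ℕ → Bˣ} {b : B} (hb : b ≠ 0)
    (h : ∀ q, IsPow p q ((w q : B) * b)) : IsUnit b := by
  classical
  by_contra hnu
  set N := (UniqueFactorizationMonoid.factors b).card with hN
  obtain ⟨c, hc⟩ := h N
  have hlt : N < p ^ N := Nat.lt_pow_self hp.out.one_lt
  have hassoc : Associated (c ^ p ^ N) b := by
    rw [hc]
    exact (associated_unit_mul_left b _ (w N).isUnit)
  have hc0 : c ≠ 0 := by
    rintro rfl
    rw [zero_pow (pow_ne_zero _ hp.out.ne_zero)] at hassoc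
    exact hb (hassoc.symm.eq_zero_iff.mpr rfl)
  have hcu : ¬ IsUnit c := fun h => hnu (hassoc.isUnit (h.pow _))
  have h1 : (UniqueFactorizationMonoid.factors (c ^ p ^ N)).card = N := by
    have := UniqueFactorizationMonoid.factors_rel_of_associated hassoc
    rw [Multiset.card_eq_card_of_rel this]
  have h2 := Multiset.card_eq_card_of_rel (UniqueFactorizationMonoid.factors_pow (x := c) (p ^ N))
  rw [h1, Multiset.card_nsmul] at h2
  have h3 : 1 ≤ (UniqueFactorizationMonoid.factors c).card := by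
    by_contra h4
    have h5 : UniqueFactorizationMonoid.factors c = 0 := Multiset.card_eq_zero.mp (by omega)
    have h6 := UniqueFactorizationMonoid.factors_prod hc0
    rw [h5, Multiset.prod_zero] at h6
    exact hcu (h6.isUnit isUnit_one)
  have : p ^ N * 1 ≤ p ^ N * (UniqueFactorizationMonoid.factors c).card := Nat.mul_le_mul_left _ h3
  omega

variable [hp : Fact p.Prime] {k : Type*} [Field k] [CharP k p] [IsAlgClosed k] {m n : ℕ}
  {A : Type*} [CommRing A] [Algebra k A] [Algebra A (Torus k m)] [IsScalarTower k A (Torus k m)]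
  (hA : Function.Injective (algebraMap A (Torus k m)))
  {B : Type*} [CommRing B] [Algebra k B] [Algebra B (Torus k n)] [IsScalarTower k B (Torus k n)]
  (hB : Function.Injective (algebraMap B (Torus k n)))
  [Algebra A B] [IsScalarTower k A B] (hφ : UnitsCond p A B)

include hA hB hφ in
/-- essential surjectivity for bundles of rank 1 -/
theorem exists_seq {w : ℕ → Bˣ} (hw : Coh p w) : ∃ (u : ℕ → Aˣ) (h : Bˣ), Coh p u ∧
    ∀ q, ∃ c : Bˣ, w q * h = um A B (u q) * c ^ p ^ q := by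
  obtain ⟨s, hs⟩ := exists_s (k := k) (p := p) hB hφ
  have h1 : ∀ q, ∃ a : Aˣ, w (q + s) * (w s)⁻¹ = um A B a := by
    intro q
    obtain ⟨c, hc⟩ := hw.le (Nat.le_add_left s q)
    obtain ⟨a, ha⟩ := hs c
    refine ⟨a, ?_⟩
    rw [hc, ← ha, mul_comm (w s), mul_assoc, mul_inv_cancel, mul_one]
  choose u hu using h1
  refine ⟨u, (w s)⁻¹, ?_, ?_⟩
  · intro q
    obtain ⟨c, hc⟩ := hw (q + s)
    obtain ⟨a, ha⟩ := hs c
    refine ⟨a, um_inj' hA hB hφ ?_⟩
    rw [map_mul, map_pow, ← ha, ← hu q, ← hu (q + 1), show q + 1 + s = q + s + 1 by ring, hc,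
      ← pow_mul, ← pow_add, add_comm s q]
    exact mul_right_comm _ _ _
  · intro q
    obtain ⟨c, hc⟩ := hw.le (Nat.le_add_right q s)
    refine ⟨c⁻¹, ?_⟩
    rw [← hu q, hc, inv_pow]
    have : w q * c ^ p ^ q * (w s)⁻¹ * (c ^ p ^ q)⁻¹ = w q * (w s)⁻¹ * (c ^ p ^ q * (c ^ p ^ q)⁻¹) := by
      rw [mul_right_comm (w q), mul_assoc]
    rw [this, mul_inv_cancel, mul_one]

include hA hB hφ in
/-- fullness for bundles of rank 1 -/
theorem exists_hom [IsDomain B] [UniqueFactorizationMonoid B] {v : ℕ → Aˣ} (hv : Coh p v) {b : B}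
    (hb : ∀ q, IsPow p q ((um A B (v q) : B) * b)) :
    ∃ a : A, algebraMap A B a = b ∧ ∀ q, IsPow p q ((v q : A) * a) := by
  by_cases hb0 : b = 0
  · exact ⟨0, by rw [map_zero, hb0], fun q => ⟨0, by
      rw [mul_zero, zero_pow (pow_ne_zero _ hp.out.ne_zero)]⟩⟩
  obtain ⟨b', rfl⟩ := isUnit_of_pow hb0 hb
  obtain ⟨s, hs⟩ := exists_s (k := k) (p := p) hB hφ
  have h1 : ∀ q, ∃ a : Aˣ, um A B (v (q + s)) * b' = um A B a ^ p ^ q := by
    intro q
    obtain ⟨c, hc⟩ := (hb (q + s)).isUnit ((um A B (v (q + s)) * b').isUnit)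
    obtain ⟨a, ha⟩ := hs c
    refine ⟨a, ?_⟩
    rw [← ha]
    ext
    rw [← pow_mul, ← pow_add, add_comm s q, Units.val_pow_eq_pow_val, hc]
    rfl
  choose a ha using h1
  have ha0 := ha 0
  rw [pow_zero, pow_one, zero_add] at ha0
  have h2 : um A B (a 0 * (v s)⁻¹) = b' := by
    rw [map_mul, ← ha0, map_inv, mul_comm (um A B (v s)), mul_assoc, mul_inv_cancel, mul_one]
  refine ⟨((a 0 * (v s)⁻¹ : Aˣ) : A), ?_, ?_⟩
  · have := congrArg (fun x : Bˣ => (x : B)) h2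
    exact this
  · intro q
    have h3 : v (q + s) * (a 0 * (v s)⁻¹) = a q ^ p ^ q := by
      apply um_inj' hA hB hφ
      rw [map_mul, h2, ha q, map_pow]
    obtain ⟨c, hc⟩ := hv.le (Nat.le_add_right q s)
    refine ⟨((a q * c⁻¹ : Aˣ) : A), ?_⟩
    have h4 : (a q * c⁻¹) ^ p ^ q = v q * (a 0 * (v s)⁻¹) := by
      rw [mul_pow, ← h3, hc, inv_pow, mul_right_comm, mul_assoc (v q), mul_inv_cancel, mul_one]
    have h5 := congrArg (fun x : Aˣ => (x : A)) h4
    simpa only [Units.val_pow_eq_pow_val, Units.val_mul] using h5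

/-- faithfulness for bundles of rank 1 -/
theorem hom_inj [IsDomain A] [UniqueFactorizationMonoid A] [CharP A p] [Nontrivial B]
    {v : ℕ → Aˣ} {a a' : A} (ha : ∀ q, IsPow p q ((v q : A) * a))
    (ha' : ∀ q, IsPow p q ((v q : A) * a')) (h : algebraMap A B a = algebraMap A B a') : a = a' := by
  by_contra hne
  have h1 : a - a' ≠ 0 := sub_ne_zero.mpr hne
  have h2 := isUnit_of_pow (w := v) h1 fun q => by
    rw [sub_eq_add_neg, mul_add, mul_neg]
    exact (ha q).add (p := p) (ha' q).neg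
  have h3 := h2.map (algebraMap A B)
  rw [map_sub, h, sub_self] at h3
  exact not_isUnit_zero h3

end Seq

end FD
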