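import Pool.Agent.Lib.FD.Decomp

set_option autoImplicit false

namespace FD

open Finset

section LocFin

variable {p : ℕ} [hp : Fact p.Prime] {k : Type*} [Field k] {n : ℕ}

theorem mem_chart {i : Fin n} {ε : ℤˣ} {f : Torus k n} :
    f ∈ chart k i ε ↔ ∀ a, f.coeff a ≠ 0 → 0 ≤ (ε : ℤ) * a i := Iff.rfl

theorem eqn_pow (i : Fin n) (ε : ℤˣ) (l : ℕ) :
    eqn k i ε ^ l = mon k (l • (Pi.single i (ε : ℤ) : Fin n → ℤ)) := by
  rw [eqn]
  induction l with
  | zero => rw [pow_zero, zero_smul]; rfl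
  | succ m ih => rw [pow_succ, ih, mon_mul_mon, succ_nsmul]

theorem eps_mul_eps (ε : ℤˣ) : (ε : ℤ) * (ε : ℤ) = 1 := by
  rcases Int.units_eq_one_or ε with rfl | rfl <;> simp

omit hp in
theorem proj_mem_chart (q : ℕ) (c : Fin n → ℤ) {i : Fin n} {ε : ℤˣ} {f : Torus k n}
    (hf : f ∈ chart k i ε) : proj k p q c f ∈ chart k i ε := by
  classical
  intro a ha
  rw [coeff_proj] at ha
  apply hf a
  intro h
  apply ha
  rw [h]
  simp

theorem isLogOp_proj [CharP k p] (q : ℕ) (c : Fin n → ℤ) (i : Fin n) (ε : ℤˣ) :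
    IsLogOp p q i ε (proj k p q c) := by
  refine ⟨proj_pow_mul p q c, ?_⟩
  intro l f hf
  exact ⟨_, proj_mem_chart q _ hf, by rw [eqn_pow, proj_mon_mul]⟩

theorem eqn_mem_chart (i : Fin n) (ε : ℤˣ) : eqn k i ε ∈ chart k i ε := by
  intro a ha
  rw [eqn, mon, AddMonoidAlgebra.coeff_single] at ha
  have : a = Pi.single i (ε : ℤ) := by
    by_contra hne
    exact ha (by simp [Ne.symm hne])
  rw [this, Pi.single_eq_same, eps_mul_eps]
  norm_num

theorem exists_pow_mul_mem_chart (i : Fin n) (ε : ℤˣ) (f : Torus k n) :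
    ∃ l : ℕ, eqn k i ε ^ l * f ∈ chart k i ε := by
  classical
  refine ⟨∑ a ∈ f.coeff.support, (a i).natAbs, ?_⟩
  intro a ha
  rw [eqn_pow, coeff_mon_mul] at ha
  set b := a - (∑ a ∈ f.coeff.support, (a i).natAbs) • (Pi.single i (ε : ℤ) : Fin n → ℤ) with hb
  have hmem := Finsupp.mem_support_iff.mpr ha
  have hle : (b i).natAbs ≤ ∑ a ∈ f.coeff.support, (a i).natAbs :=
    Finset.single_le_sum (f := fun a : Fin n → ℤ => (a i).natAbs) (fun _ _ => Nat.zero_le _) hmem
  have h1 : b i = a i - (∑ a ∈ f.coeff.support, (a i).natAbs : ℕ) * (ε : ℤ) := by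
    rw [hb, Pi.sub_apply, Pi.smul_apply, Pi.single_eq_same, nsmul_eq_mul]
  have h2 : a i = b i + (∑ a ∈ f.coeff.support, (a i).natAbs : ℕ) * (ε : ℤ) := by rw [h1]; ring
  rw [h2, mul_add]
  have h3 : (ε : ℤ) * (((∑ a ∈ f.coeff.support, (a i).natAbs : ℕ) : ℤ) * (ε : ℤ))
      = ((∑ a ∈ f.coeff.support, (a i).natAbs : ℕ) : ℤ) := by
    rw [mul_left_comm, eps_mul_eps, mul_one]
  rw [h3]
  have h4 : -((b i).natAbs : ℤ) ≤ (ε : ℤ) * b i := by
    rcases Int.units_eq_one_or ε with rfl | rfl
    · simp; exact neg_abs_le _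
    · simp; exact le_abs_self _
  omega

variable {V : Type*} [AddCommGroup V] [Module (Torus k n) V]

theorem exists_shift {i : Fin n} {ε : ℤˣ} (N : Submodule (chart k i ε) V)
    (hspan : Submodule.span (Torus k n) (N : Set V) = ⊤) (v : V) :
    ∃ l : ℕ, eqn k i ε ^ l • v ∈ N := by
  have hmono : ∀ (w : V) (l a : ℕ), eqn k i ε ^ l • w ∈ N → eqn k i ε ^ (a + l) • w ∈ N := by
    intro w l a h
    have h1 : eqn k i ε ^ (a + l) • w
        = (⟨eqn k i ε ^ a, pow_mem (eqn_mem_chart i ε) a⟩ : chart k i ε) •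
          (eqn k i ε ^ l • w) := by
      rw [Subalgebra.smul_def, smul_smul, pow_add]
    rw [h1]
    exact N.smul_mem _ h
  have hv : v ∈ Submodule.span (Torus k n) (N : Set V) := by rw [hspan]; trivial
  induction hv using Submodule.span_induction with
  | mem x hx => exact ⟨0, by simpa using hx⟩
  | zero => exact ⟨0, by simp⟩
  | add x y _ _ hx hy =>
    obtain ⟨a, ha⟩ := hx
    obtain ⟨b, hb⟩ := hy
    refine ⟨b + a, ?_⟩
    rw [smul_add]
    refine N.add_mem (hmono x a b ha) ?_
    rw [add_comm b a]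
    exact hmono y b a hb
  | smul f x _ hx =>
    obtain ⟨a, ha⟩ := hx
    obtain ⟨s, hs⟩ := exists_pow_mul_mem_chart i ε f
    refine ⟨s + a, ?_⟩
    have h1 : eqn k i ε ^ (s + a) • f • x
        = (⟨eqn k i ε ^ s * f, hs⟩ : chart k i ε) • (eqn k i ε ^ a • x) := by
      rw [Subalgebra.smul_def, smul_smul, smul_smul, pow_add]
      congr 1
      ring
    rw [h1]
    exact N.smul_mem _ ha

/-- lower bounds for the exponents of the coordinates of the elements of `N` -/
theorem exists_bound {i : Fin n} {ε : ℤˣ} (N : Submodule (chart k i ε) V) (hN : N.FG) {d : ℕ}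
    (ξ : Fin d → (V →ₗ[Torus k n] Torus k n)) :
    ∃ c : ℕ, ∀ v ∈ N, ∀ l a, (ξ l v).coeff a ≠ 0 → -(c : ℤ) ≤ (ε : ℤ) * a i := by
  classical
  obtain ⟨s, rfl⟩ := hN
  refine ⟨∑ v ∈ s, ∑ l, ∑ a ∈ (ξ l v).coeff.support, (a i).natAbs, ?_⟩
  intro v hv
  induction hv using Submodule.span_induction with
  | mem x hx =>
    intro l a ha
    have hmem := Finsupp.mem_support_iff.mpr ha
    have h1 : (a i).natAbs ≤ ∑ a ∈ (ξ l x).coeff.support, (a i).natAbs :=
      Finset.single_le_sum (f := fun a : Fin n → ℤ => (a i).natAbs) (fun _ _ => Nat.zero_le _) hmem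
    have h2 : ∑ a ∈ (ξ l x).coeff.support, (a i).natAbs
        ≤ ∑ l, ∑ a ∈ (ξ l x).coeff.support, (a i).natAbs :=
      Finset.single_le_sum (f := fun l => ∑ a ∈ (ξ l x).coeff.support, (a i).natAbs)
        (fun _ _ => Nat.zero_le _) (Finset.mem_univ l)
    have h3 : ∑ l, ∑ a ∈ (ξ l x).coeff.support, (a i).natAbs
        ≤ ∑ v ∈ s, ∑ l, ∑ a ∈ (ξ l v).coeff.support, (a i).natAbs :=
      Finset.single_le_sum (f := fun v => ∑ l, ∑ a ∈ (ξ l v).coeff.support, (a i).natAbs)
        (fun _ _ => Nat.zero_le _) (Finset.mem_coe.mp hx)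
    have h4 : -((a i).natAbs : ℤ) ≤ (ε : ℤ) * a i := by
      rcases Int.units_eq_one_or ε with rfl | rfl
      · simp; exact neg_abs_le _
      · simp; exact le_abs_self _
    omega
  | zero => intro l a ha; simp at ha
  | add x y _ _ hx hy =>
    intro l a ha
    by_cases h : (ξ l x).coeff a = 0
    · apply hy l a
      intro h'
      apply ha
      rw [map_add, AddMonoidAlgebra.coeff_add, Finsupp.add_apply, h, h', add_zero]
    · exact hx l a h
  | smul f x _ hx =>
    intro l a ha
    set c := ∑ v ∈ s, ∑ l, ∑ a ∈ (ξ l v).coeff.support, (a i).natAbs with hc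
    have h1 : eqn k i ε ^ c * ξ l x ∈ chart k i ε := by
      intro b hb
      rw [eqn_pow, coeff_mon_mul] at hb
      have h2 := hx l _ hb
      rw [Pi.sub_apply, Pi.smul_apply, Pi.single_eq_same, nsmul_eq_mul, mul_sub,
        mul_left_comm, eps_mul_eps, mul_one] at h2
      linarith
    have h2 := (chart k i ε).mul_mem f.2 h1
    have h3 : ξ l (f • x) = (f : Torus k n) * ξ l x := by
      rw [Subalgebra.smul_def, map_smul, smul_eq_mul]
    rw [h3] at ha
    have h4 := h2 (a + c • (Pi.single i (ε : ℤ) : Fin n → ℤ)) (by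
      rw [mul_left_comm, eqn_pow, coeff_mon_mul, add_sub_cancel_right]
      exact ha)
    rw [Pi.add_apply, Pi.smul_apply, Pi.single_eq_same, nsmul_eq_mul, mul_add,
      mul_left_comm, eps_mul_eps, mul_one] at h4
    linarith

end LocFin

section Main

variable {p : ℕ} [hp : Fact p.Prime] {k : Type*} [Field k] [CharP k p] {n : ℕ}
  {V : Type*} [AddCommGroup V] [Module (Torus k n) V] [Module k V]
  [IsScalarTower k (Torus k n) V] (S : FDiv p (Torus k n) V)

/-- A regular singular F-divided bundle on the torus is spanned by its homogeneous elements. -/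
theorem mem_span_Vg (hreg : RegularTorus S) (v : V) :
    v ∈ Submodule.span k (⋃ γ, Vg S γ) := by
  classical
  obtain ⟨d, e, ξ, hsum⟩ := S.exists_coords
  choose N hNfg hspan hstab using hreg
  choose c hc using fun i ε => exists_bound (N i ε) (hNfg i ε) ξ
  choose s hs using fun i ε => exists_shift (N i ε) (hspan i ε) v
  have hkmem : ∀ (i : Fin n) (ε : ℤˣ) (r : k), algebraMap k (Torus k n) r ∈ chart k i ε :=
    fun i ε r => (chart k i ε).algebraMap_mem r
  let W : Submodule k V :=
    { carrier := {w | ∀ i ε, eqn k i ε ^ s i ε • w ∈ N i ε}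
      add_mem' := fun ha hb i ε => by rw [smul_add]; exact (N i ε).add_mem (ha i ε) (hb i ε)
      zero_mem' := fun i ε => by rw [smul_zero]; exact (N i ε).zero_mem
      smul_mem' := fun r w hw i ε => by
        have h1 : eqn k i ε ^ s i ε • r • w
            = (⟨algebraMap k _ r, hkmem i ε r⟩ : chart k i ε) • (eqn k i ε ^ s i ε • w) := by
          rw [Subalgebra.smul_def, ← algebraMap_smul (Torus k n) r w, smul_smul, smul_smul,
            mul_comm]
        rw [h1]
        exact (N i ε).smul_mem _ (hw i ε) }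
  have hvW : v ∈ W := hs
  have hst : ∀ q c, ∀ w ∈ W, P S q c w ∈ W := by
    intro q c w hw i ε
    have h1 : eqn k i ε ^ s i ε • P S q c w
        = P S q (c + s i ε • (Pi.single i (ε : ℤ) : Fin n → ℤ)) (eqn k i ε ^ s i ε • w) := by
      rw [eqn_pow, P_mon_smul, add_sub_cancel_right]
    rw [h1]
    exact hstab i ε q (proj k p q _) (P S q _) (isLogOp_proj q _ i ε)
      (fun f m hm => P_smul S q _ f hm) _ (hw i ε)
  set C : ℕ := ∑ i, ∑ ε, (c i ε + s i ε) with hC
  have hCle : ∀ i ε, c i ε + s i ε ≤ C := by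
    intro i ε
    have h1 : c i ε + s i ε ≤ ∑ ε, (c i ε + s i ε) :=
      Finset.single_le_sum (f := fun ε => c i ε + s i ε) (fun _ _ => Nat.zero_le _)
        (Finset.mem_univ ε)
    have h2 : ∑ ε, (c i ε + s i ε) ≤ C :=
      Finset.single_le_sum (f := fun i => ∑ ε, (c i ε + s i ε)) (fun _ _ => Nat.zero_le _)
        (Finset.mem_univ i)
    omega
  let box : Finset (Fin n → ℤ) := Fintype.piFinset fun _ => Finset.Icc (-(C : ℤ)) C
  have hbox : ∀ w ∈ W, ∀ l a, (ξ l w).coeff a ≠ 0 → a ∈ box := by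
    intro w hw l a ha
    rw [Fintype.mem_piFinset]
    intro i
    have key : ∀ ε : ℤˣ, -((c i ε + s i ε : ℕ) : ℤ) ≤ (ε : ℤ) * a i := by
      intro ε
      have h1 := hc i ε _ (hw i ε) l (a + s i ε • (Pi.single i (ε : ℤ) : Fin n → ℤ)) (by
        rw [map_smul, smul_eq_mul, eqn_pow, coeff_mon_mul, add_sub_cancel_right]
        exact ha)
      rw [Pi.add_apply, Pi.smul_apply, Pi.single_eq_same, nsmul_eq_mul, mul_add,
        mul_left_comm, eps_mul_eps, mul_one] at h1
      push_cast
      linarith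
    have h1 := key 1
    have h2 := key (-1)
    have h3 := hCle i 1
    have h4 := hCle i (-1)
    simp only [Units.val_one, one_mul, Units.val_neg, neg_mul] at h1 h2
    rw [Finset.mem_Icc]
    constructor <;> omega
  let Φ : W →ₗ[k] (Fin d → box → k) :=
    { toFun := fun w l a => (ξ l w).coeff a
      map_add' := by
        intro x y
        funext l a
        simp
      map_smul' := by
        intro r x
        funext l a
        have h1 : ξ l ((r • x : W) : V) = algebraMap k (Torus k n) r * ξ l x := by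
          rw [Submodule.coe_smul, ← algebraMap_smul (Torus k n) r (x : V), map_smul, smul_eq_mul]
        simp only [h1, coeff_scalar_mul]
        rfl }
  have hΦ : Function.Injective Φ := by
    rw [injective_iff_map_eq_zero]
    intro w hw
    apply Subtype.ext
    rw [← hsum (w : V)]
    apply Finset.sum_eq_zero
    intro l _
    have : ξ l w = 0 := by
      ext a
      by_contra hne
      have ha := hbox w w.2 l a hne
      exact hne (congrFun (congrFun hw l) ⟨a, ha⟩)
    rw [this, zero_smul]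
  have hfin : FiniteDimensional k W := Module.Finite.of_injective Φ hΦ
  exact decomp S _ W rfl hst hvW

end Main

end FD
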