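import Pool.Agent.Lib.FD.Equiv

set_option autoImplicit false

namespace FD

open Finset TensorProduct

section Functor

variable {p : ℕ} [hp : Fact p.Prime] {A B : Type*} [CommRing A] [CommRing B] [Algebra A B]
  {M M' N N' : Type*} [AddCommGroup M] [Module A M] [AddCommGroup M'] [Module A M']
  [AddCommGroup N] [Module B N] [Module A N] [IsScalarTower A B N]
  [AddCommGroup N'] [Module B N'] [Module A N'] [IsScalarTower A B N']
  {S : FDiv p A M} {S' : FDiv p A M'} {T : FDiv p B N} {T' : FDiv p B N'}
  {ι : M →ₗ[A] N} {ι' : M' →ₗ[A] N'}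

omit hp in
/-- pull-back of morphisms -/
theorem exists_pull_hom (h : IsPull S T ι) (h' : IsPull S' T' ι') (u : M →ₗ[A] M')
    (hu : IsHor S S' u) : ∃! v : N →ₗ[B] N', IsHor T T' v ∧ ∀ x, ι' (u x) = v (ι x) := by
  refine ⟨h.1.lift (ι'.comp u), ⟨?_, fun x => (h.1.lift_eq (ι'.comp u) x).symm⟩, ?_⟩
  · intro q x hx
    rw [h.2 q] at hx
    induction hx using AddSubgroup.closure_induction with
    | mem x hx =>
      obtain ⟨c, m, hm, rfl⟩ := hx
      rw [map_smul, h.1.lift_eq]
      exact T'.pow_smul q _ _ (h'.map_mem (hu q m hm))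
    | zero => rw [map_zero]; exact zero_mem _
    | add x y _ _ hx hy => rw [map_add]; exact add_mem hx hy
    | neg x _ hx => rw [map_neg]; exact neg_mem hx
  · rintro v ⟨-, hv⟩
    apply h.1.algHom_ext
    intro x
    rw [← hv, h.1.lift_eq]
    rfl

end Functor

section Main

variable {p : ℕ} [hp : Fact p.Prime] {k : Type*} [Field k] [CharP k p] [IsAlgClosed k] {m n : ℕ}
  {A : Type*} [CommRing A] [IsDomain A] [UniqueFactorizationMonoid A] [Algebra k A]
  [Algebra A (Torus k m)] [IsScalarTower k A (Torus k m)] (f : A)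
  [IsLocalization.Away f (Torus k m)]
  {B : Type*} [CommRing B] [IsDomain B] [UniqueFactorizationMonoid B] [Algebra k B]
  [Algebra B (Torus k n)] [IsScalarTower k B (Torus k n)] (g : B)
  [hgl : IsLocalization.Away g (Torus k n)]
  [Algebra A B] [IsScalarTower k A B] (hφ : UnitsCond p A B)

include f in
omit [IsScalarTower k A B] [IsDomain B] [UniqueFactorizationMonoid B] [Algebra k B]
  [Algebra B (Torus k n)] [IsScalarTower k B (Torus k n)] in
/-- existence of pull-backs -/
theorem exists_pull [CharP B p] {M : Type*} [AddCommGroup M] [Module A M] {S : FDiv p A M}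
    (hS : Regular k m S) : ∃ T : FDiv p B (B ⊗[A] M), IsPull S T (TensorProduct.mk A B M 1) := by
  obtain ⟨d, b, u, hu, hdiag⟩ := hS.exists_diag f
  have hD := isDiag_diagFDiv (p := p) (b.baseChange B)
      (fun i q => Units.map (algebraMap A B).toMonoidHom (u i q))
      fun i => (hu i).map (algebraMap A B)
  refine ⟨diagFDiv (b.baseChange B)
      (fun i q => Units.map (algebraMap A B).toMonoidHom (u i q))
      (fun i => (hu i).map (algebraMap A B)), ?_⟩
  refine isPull_of_diag (β := fun _ => 1) hdiag hD hp.out.ne_zero ?_ ?_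
  · intro i
    rw [Units.val_one, one_smul, Module.Basis.baseChange_apply]
    rfl
  · exact fun i q => ⟨1, by rw [mul_one, one_pow, mul_one]⟩

include f in
omit [IsDomain B] [UniqueFactorizationMonoid B] [Algebra k B] [IsScalarTower k B (Torus k n)]
  [IsScalarTower k A B] in
/-- pull-backs are regular singular -/
theorem regular_pull [CharP B p] {M : Type*} [AddCommGroup M] [Module A M] {S : FDiv p A M}
    (hS : Regular k m S) {N : Type*} [AddCommGroup N] [Module B N] [Module A N]
    [IsScalarTower A B N] {T : FDiv p B N} {ι : M →ₗ[A] N} (h : IsPull S T ι) :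
    Regular k n T := by
  obtain ⟨d, b, u, hu, hdiag⟩ := hS.exists_diag f
  exact (h.isDiag hu hdiag).regular fun i => (hu i).map (algebraMap A B)

include f g hgl hφ in
/-- essential surjectivity -/
theorem exists_descent {N : Type*} [AddCommGroup N] [Module B N] [Module A N]
    [IsScalarTower A B N] [CharP A p] {T : FDiv p B N} (hT : Regular k n T) :
    ∃ (d : ℕ) (S : FDiv p A (Fin d → A)) (ι : (Fin d → A) →ₗ[A] N),
      Regular k m S ∧ IsPull S T ι := by
  have hA := inj (Torus k m) f
  have hB := inj (Torus k n) g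
  obtain ⟨d, b', w, hw, hdiag⟩ := hT.exists_diag g
  choose u h hu hc using fun i => exists_seq (k := k) (m := m) (n := n) hA hB hφ (hw i)
  have hD := isDiag_diagFDiv (p := p) (Pi.basisFun A (Fin d)) u hu
  refine ⟨d, diagFDiv (Pi.basisFun A (Fin d)) u hu,
    (Pi.basisFun A (Fin d)).constr ℤ fun i => (h i : B) • b' i, hD.regular hu, ?_⟩
  refine isPull_of_diag (β := h) hD hdiag hp.out.ne_zero ?_ hc
  intro i
  rw [Module.Basis.constr_basis]

include f g hgl hφ in
/-- full faithfulness -/
theorem exists_unique_hom [CharP A p] {M M' N N' : Type*} [AddCommGroup M] [Module A M]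
    [AddCommGroup M'] [Module A M'] [AddCommGroup N] [Module B N] [Module A N]
    [IsScalarTower A B N] [AddCommGroup N'] [Module B N'] [Module A N'] [IsScalarTower A B N']
    {S : FDiv p A M} {S' : FDiv p A M'} {T : FDiv p B N} {T' : FDiv p B N'}
    {ι : M →ₗ[A] N} {ι' : M' →ₗ[A] N'} (hS : Regular k m S) (hS' : Regular k m S')
    (h : IsPull S T ι) (h' : IsPull S' T' ι') [CharP B p] (v : N →ₗ[B] N') (hv : IsHor T T' v) :
    ∃! u : M →ₗ[A] M', IsHor S S' u ∧ ∀ x, ι' (u x) = v (ι x) := by
  classical
  have hA := inj (Torus k m) f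
  have hB := inj (Torus k n) g
  obtain ⟨d, b, w, hw, hdiag⟩ := hS.exists_diag f
  obtain ⟨d', b', w', hw', hdiag'⟩ := hS'.exists_diag f
  have hT := h.isDiag hw hdiag
  have hT' := h'.isDiag hw' hdiag'
  set β := h.1.basis b with hβ
  set β' := h'.1.basis b' with hβ'
  have hβb : ∀ i, β i = ι (b i) := fun i => h.1.basis_apply b i
  have hβb' : ∀ i, β' i = ι' (b' i) := fun i => h'.1.basis_apply b' i
  -- the matrix of a horizontal map
  have hmat : ∀ i l, ∀ q, IsPow p q
      ((um A B ((w' l q) * (w i q)⁻¹) : B) * β'.repr (v (β i)) l) := by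
    intro i l q
    have h1 : ((um A B (w i q)⁻¹ : Bˣ) : B) • β i ∈ T.F q := by
      rw [hT q]
      intro r
      rw [map_smul, Finsupp.smul_apply, Module.Basis.repr_self]
      by_cases hir : i = r
      · subst hir
        rw [Finsupp.single_eq_same, smul_eq_mul, mul_one, ← Units.val_mul, ← map_mul,
          mul_inv_cancel, map_one]
        exact ⟨1, one_pow _⟩
      · rw [Finsupp.single_eq_of_ne (Ne.symm hir), smul_zero, mul_zero]
        exact ⟨0, zero_pow (pow_ne_zero _ hp.out.ne_zero)⟩
    have h2 := (hT' q _).mp (hv q _ h1) l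
    rw [map_smul, map_smul, Finsupp.smul_apply, smul_eq_mul, ← mul_assoc, ← Units.val_mul,
      ← map_mul] at h2
    exact h2
  have hcoh : ∀ i l, Coh p fun q => w' l q * (w i q)⁻¹ := fun i l => (hw' l).mul (hw i).inv
  choose a ha hapow using fun i l => exists_hom (k := k) (m := m) (n := n) hA hB hφ (hcoh i l)
    (b := β'.repr (v (β i)) l) (hmat i l)
  refine ⟨b.constr ℤ fun i => ∑ l, a i l • b' l, ⟨?_, ?_⟩, ?_⟩
  · intro q x hx
    rw [hdiag' q]
    intro l
    have hx' := (hdiag q x).mp hx
    have h1 : b'.repr (b.constr ℤ (fun i => ∑ l, a i l • b' l) x) l =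
        ∑ i, b.repr x i * a i l := by
      rw [Module.Basis.constr_apply_fintype]
      simp only [map_sum, map_smul, Finsupp.coe_finsetSum, Finset.sum_apply, Finsupp.smul_apply,
        Module.Basis.equivFun_apply, smul_eq_mul]
      apply Finset.sum_congr rfl
      intro i _
      congr 1
      have := b'.repr_sum_self (a i)
      simpa only [map_sum, map_smul, Finsupp.coe_finsetSum, Finset.sum_apply, Finsupp.smul_apply,
        smul_eq_mul] using congrFun this l
    rw [h1, Finset.mul_sum]
    have hsum : ∀ s : Finset (Fin d), IsPow p q (∑ i ∈ s, (w' l q : A) * (b.repr x i * a i l)) := by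
      intro s
      induction s using Finset.induction_on with
      | empty => exact ⟨0, by rw [Finset.sum_empty, zero_pow (pow_ne_zero _ hp.out.ne_zero)]⟩
      | insert i s hi ih =>
        rw [Finset.sum_insert hi]
        refine IsPow.add (p := p) ?_ ih
        have h2 := (hx' i).mul (hapow i l q)
        have h3 : (w i q : A) * b.repr x i * (((w' l q * (w i q)⁻¹ : Aˣ) : A) * a i l) =
            (w' l q : A) * (b.repr x i * a i l) := by
          rw [Units.val_mul]
          have h4 : (w i q : A) * ((w i q)⁻¹ : Aˣ) = 1 := Units.mul_inv _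
          linear_combination (↑(w' l q) * (b.repr x i * a i l)) * h4
        rwa [h3] at h2
    exact hsum Finset.univ
  · intro x
    have h1 : ι'.comp (b.constr ℤ fun i => ∑ l, a i l • b' l) =
        (v.restrictScalars A).comp ι := by
      apply b.ext
      intro i
      rw [LinearMap.comp_apply, Module.Basis.constr_basis, LinearMap.comp_apply, ← hβb i,
        LinearMap.restrictScalars_apply]
      conv_rhs => rw [← β'.sum_repr (v (β i))]
      rw [map_sum]
      apply Finset.sum_congr rfl
      intro l _
      rw [map_smul, ← ha i l, algebraMap_smul, hβb' l]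
    exact LinearMap.congr_fun h1 x
  · rintro u ⟨hu, huv⟩
    have hBnt : Nontrivial B := (algebraMap B (Torus k n)).domain_nontrivial
    apply b.ext
    intro i
    rw [Module.Basis.constr_basis]
    rw [← b'.sum_repr (u (b i))]
    apply Finset.sum_congr rfl
    intro l _
    congr 1
    apply hom_inj (B := B) (v := fun q => w' l q * (w i q)⁻¹) (p := p) ?_ (hapow i l) ?_
    · intro q
      have h1 : ((w i q)⁻¹ : Aˣ).val • b i ∈ S.F q := by
        rw [hdiag q]
        intro r
        rw [map_smul, Finsupp.smul_apply, Module.Basis.repr_self]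
        by_cases hir : i = r
        · subst hir
          rw [Finsupp.single_eq_same, smul_eq_mul, mul_one, Units.mul_inv]
          exact ⟨1, one_pow _⟩
        · rw [Finsupp.single_eq_of_ne (Ne.symm hir), smul_zero, mul_zero]
          exact ⟨0, zero_pow (pow_ne_zero _ hp.out.ne_zero)⟩
      have h2 := (hdiag' q _).mp (hu q _ h1) l
      rw [map_smul, map_smul, Finsupp.smul_apply, smul_eq_mul, ← mul_assoc, ← Units.val_mul] at h2
      exact h2
    · rw [ha i l, hβb i, ← huv (b i), h'.1.basis_repr_comp_apply]

end Main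

end FD
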