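import Pool.Agent.Lib.FD.Base

set_option autoImplicit false

namespace FD

open Finset

section Prim

variable {B : Type*} [CommRing B] [IsDomain B] [UniqueFactorizationMonoid B]
  {M : Type*} [AddCommGroup M] [Module B M]

/-- `m` is not divisible by a non-unit -/
def Prim (B : Type*) [CommRing B] {M : Type*} [AddCommGroup M] [Module B M] (m : M) : Prop :=
  ∀ (d : B) (m' : M), m = d • m' → IsUnit d

omit [IsDomain B] in
theorem prim_of {d : ℕ} (ξ : Fin d → (M →ₗ[B] B)) (m : M) (h0 : ∃ i, ξ i m ≠ 0)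
    (h : ∀ π : B, Prime π → ∃ i, ¬ π ∣ ξ i m) : Prim B m := by
  intro c m' hm
  by_contra hd
  rcases eq_or_ne c 0 with rfl | hd0
  · obtain ⟨i, hi⟩ := h0
    apply hi
    rw [hm]
    simp
  · obtain ⟨π, hπ, hdvd⟩ := WfDvdMonoid.exists_irreducible_factor hd hd0
    obtain ⟨i, hi⟩ := h π hπ.prime
    apply hi
    rw [hm, map_smul, smul_eq_mul]
    exact hdvd.mul_right _

omit [IsDomain B] in
theorem extract {d : ℕ} (c : Fin d → B) (hc : ∃ i, c i ≠ 0) :
    ∃ (D : B) (c' : Fin d → B), D ≠ 0 ∧ (∀ i, c i = D * c' i) ∧ (∃ i, c' i ≠ 0) ∧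
      ∀ π : B, Prime π → ∃ i, ¬ π ∣ c' i := by
  classical
  let i1 : StrongNormalizationMonoid B := UniqueFactorizationMonoid.strongNormalizationMonoid
  let i2 := UniqueFactorizationMonoid.toNormalizedGCDMonoid B
  obtain ⟨i₀, hi₀⟩ := hc
  obtain ⟨c', hc', h1⟩ := Finset.extract_gcd c ⟨i₀, Finset.mem_univ i₀⟩
  refine ⟨Finset.univ.gcd c, c', ?_, fun i => hc' i (Finset.mem_univ i), ⟨i₀, ?_⟩, ?_⟩
  · intro h0
    have := hc' i₀ (Finset.mem_univ _)
    rw [h0, zero_mul] at this
    exact hi₀ this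
  · intro h0
    have := hc' i₀ (Finset.mem_univ _)
    rw [h0, mul_zero] at this
    exact hi₀ this
  · intro π hπ
    by_contra hall
    push Not at hall
    have := Finset.dvd_gcd (s := Finset.univ) (f := c') fun i _ => hall i
    rw [h1] at this
    exact hπ.not_isUnit (isUnit_of_dvd_one this)

theorem Prim.dvd {d : ℕ} {e : Fin d → M} {ξ : Fin d → (M →ₗ[B] B)}
    (hsum : ∀ m, ∑ i, ξ i m • e i = m) {m m' : M} (hm : Prim B m) {a b : B}
    (h : a • m = b • m') : b ∣ a := by
  have hdiv : ∀ c : B, (∀ i, c ∣ ξ i m) → IsUnit c := by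
    intro c hc
    choose y hy using hc
    apply hm c (∑ i, y i • e i)
    rw [Finset.smul_sum]
    conv_lhs => rw [← hsum m]
    apply Finset.sum_congr rfl
    intro i _
    rw [hy i, mul_smul]
  have key : ∀ b : B, ∀ a : B, (∀ i, b ∣ a * ξ i m) → b ∣ a := by
    intro b
    induction b using UniqueFactorizationMonoid.induction_on_prime with
    | h₁ =>
      intro a ha
      by_contra hne
      have ha0 : a ≠ 0 := fun h => hne (by rw [h])
      have : IsUnit (0 : B) := hdiv 0 fun i => by
        have := ha i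
        rw [zero_dvd_iff, mul_eq_zero] at this
        rw [zero_dvd_iff]
        exact this.resolve_left ha0
      exact not_isUnit_zero this
    | h₂ x hx => exact fun a _ => hx.dvd
    | h₃ x π _ hπ ih =>
      intro a ha
      have h1 : π ∣ a := by
        by_contra hna
        apply hπ.not_isUnit
        apply hdiv
        intro i
        have h2 : π ∣ a * ξ i m := (dvd_mul_right π x).trans (ha i)
        exact (hπ.dvd_or_dvd h2).resolve_left hna
      obtain ⟨a', rfl⟩ := h1
      apply mul_dvd_mul_left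
      apply ih
      intro i
      have := ha i
      rw [mul_assoc] at this
      exact (mul_dvd_mul_iff_left hπ.ne_zero).mp this
  apply key
  intro i
  have h1 := congrArg (ξ i) h
  rw [map_smul, map_smul, smul_eq_mul, smul_eq_mul] at h1
  exact ⟨_, h1⟩

omit [UniqueFactorizationMonoid B] in
theorem smul_cancel {d : ℕ} {e : Fin d → M} {ξ : Fin d → (M →ₗ[B] B)}
    (hsum : ∀ m, ∑ i, ξ i m • e i = m) {a : B} (ha : a ≠ 0) {m m' : M} (h : a • m = a • m') :
    m = m' := by
  rw [← hsum m, ← hsum m']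
  apply Finset.sum_congr rfl
  intro i _
  congr 1
  have h1 := congrArg (ξ i) h
  rw [map_smul, map_smul, smul_eq_mul, smul_eq_mul] at h1
  exact mul_left_cancel₀ ha h1

/-- a nonzero element is a multiple of a primitive one -/
theorem exists_prim {d : ℕ} {e : Fin d → M} {ξ : Fin d → (M →ₗ[B] B)}
    (hsum : ∀ m, ∑ i, ξ i m • e i = m) {m : M} (hm : m ≠ 0) :
    ∃ (D : B) (m' : M), D ≠ 0 ∧ m = D • m' ∧ Prim B m' := by
  have h0 : ∃ i, ξ i m ≠ 0 := by
    by_contra hall
    push Not at hall
    apply hm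
    rw [← hsum m]
    exact Finset.sum_eq_zero fun i _ => by rw [hall i, zero_smul]
  obtain ⟨D, c', hD, hc, hc0, hπ⟩ := extract _ h0
  have h1 : m = D • ∑ i, c' i • e i := by
    rw [Finset.smul_sum]
    conv_lhs => rw [← hsum m]
    apply Finset.sum_congr rfl
    intro i _
    rw [hc i, mul_smul]
  have h2 : ∀ l, ξ l (∑ i, c' i • e i) = c' l := by
    intro l
    have h3 := congrArg (ξ l) h1
    rw [map_smul, smul_eq_mul, hc l] at h3
    exact (mul_left_cancel₀ hD h3).symm
  refine ⟨D, _, hD, h1, prim_of ξ _ ?_ ?_⟩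
  · simpa only [h2] using hc0
  · simpa only [h2] using hπ

/-- the same in `F q` -/
theorem exists_prim_F {p : ℕ} (S : FDiv p B M) (q : ℕ) (hp : p ≠ 0) {m : M}
    (hm : m ≠ 0) (hF : m ∈ S.F q) :
    ∃ (D : B) (m' : M), D ≠ 0 ∧ m' ∈ S.F q ∧ m = D • m' ∧ Prim B m' := by
  obtain ⟨d, e, ξ, he, hξ, hsum⟩ := S.dual q
  have hQ : p ^ q ≠ 0 := pow_ne_zero _ hp
  choose c hc using fun i => hξ i m hF
  have h0 : ∃ i, c i ≠ 0 := by
    by_contra hall
    push Not at hall
    apply hm
    rw [← hsum m]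
    exact Finset.sum_eq_zero fun i _ => by rw [← hc i, hall i, zero_pow hQ, zero_smul]
  obtain ⟨D, c', hD, hcc, hc0, hπ⟩ := extract _ h0
  have h1 : m = D ^ p ^ q • ∑ i, c' i ^ p ^ q • e i := by
    rw [Finset.smul_sum]
    conv_lhs => rw [← hsum m]
    apply Finset.sum_congr rfl
    intro i _
    rw [← hc i, hcc i, mul_pow, mul_smul]
  have h2 : ∀ l, ξ l (∑ i, c' i ^ p ^ q • e i) = c' l ^ p ^ q := by
    intro l
    have h3 := congrArg (ξ l) h1
    rw [map_smul, smul_eq_mul, ← hc l, hcc l, mul_pow] at h3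
    exact (mul_left_cancel₀ (pow_ne_zero _ hD) h3).symm
  refine ⟨D ^ p ^ q, _, pow_ne_zero _ hD, ?_, h1, prim_of ξ _ ?_ ?_⟩
  · exact AddSubgroup.sum_mem _ fun i _ => S.pow_smul q _ _ (he i)
  · obtain ⟨i, hi⟩ := hc0
    exact ⟨i, by rw [h2]; exact pow_ne_zero _ hi⟩
  · intro π hπ'
    obtain ⟨i, hi⟩ := hπ π hπ'
    refine ⟨i, ?_⟩
    rw [h2]
    exact fun h => hi (hπ'.dvd_of_dvd_pow h)

end Prim

section Pow

variable {B : Type*} [CommRing B] [IsDomain B] [UniqueFactorizationMonoid B]
  (L : Type*) [CommRing L] [IsDomain L] [Algebra B L] (g : B) [IsLocalization.Away g L]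

include L in
omit [IsDomain B] [UniqueFactorizationMonoid B] in
theorem g_ne_zero : g ≠ 0 := by
  intro h
  have h1 := IsLocalization.Away.algebraMap_isUnit (S := L) g
  rw [h, map_zero] at h1
  exact not_isUnit_zero h1

include g in
omit [UniqueFactorizationMonoid B] in
theorem inj : Function.Injective (algebraMap B L) := by
  apply IsLocalization.injective L (M := Submonoid.powers g)
  exact powers_le_nonZeroDivisors_of_noZeroDivisors (g_ne_zero L g)

variable {L}

open UniqueFactorizationMonoid in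
theorem mem_of_pow {N Q : ℕ} {h : L} {c : B} (hc : algebraMap B L g ^ N * h ^ Q = algebraMap B L c)
    (hQ : N * (factors g).card < Q) : ∃ r : B, algebraMap B L r = h := by
  classical
  have hg0 := g_ne_zero L g
  have hinj := inj L g
  obtain ⟨a, b, hab⟩ := IsLocalization.Away.surj g h
  obtain ⟨s, r, c', hrel, hs, hr⟩ := exists_reduced_factors (g ^ a) (pow_ne_zero _ hg0) b
  have hc' : c' ≠ 0 := by
    rintro rfl
    rw [zero_mul] at hs
    exact pow_ne_zero _ hg0 hs.symm
  have hs0 : s ≠ 0 := by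
    rintro rfl
    rw [mul_zero] at hs
    exact pow_ne_zero _ hg0 hs.symm
  have h1 : h * algebraMap B L s = algebraMap B L r := by
    rw [← map_pow, ← hs, ← hr, map_mul, map_mul] at hab
    have hcL : algebraMap B L c' ≠ 0 := fun h => hc' (hinj (by rw [h, map_zero]))
    apply mul_left_cancel₀ hcL
    rw [← hab]
    ring
  have h2 : g ^ N * r ^ Q = c * s ^ Q := by
    apply hinj
    rw [map_mul, map_mul, map_pow, map_pow, map_pow, ← hc, ← h1]
    ring
  have h3 : s ^ Q ∣ g ^ N := by
    have hrel' : IsRelPrime (s ^ Q) (r ^ Q) := hrel.pow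
    apply hrel'.dvd_of_dvd_mul_right
    rw [h2]
    exact dvd_mul_left _ _
  have hsu : IsUnit s := by
    by_contra hns
    have h4 : (factors (s ^ Q)).card ≤ (factors (g ^ N)).card := by
      obtain ⟨x, hx⟩ := h3
      have hx0 : x ≠ 0 := by
        rintro rfl
        rw [mul_zero] at hx
        exact pow_ne_zero _ hg0 hx
      rw [hx]
      have := Multiset.card_eq_card_of_rel (factors_mul (pow_ne_zero Q hs0) hx0)
      rw [this, Multiset.card_add]
      omega
    have h5 : ∀ (x : B) (m : ℕ), x ≠ 0 → (factors (x ^ m)).card = m * (factors x).card := by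
      intro x m hx
      have := Multiset.card_eq_card_of_rel (factors_pow (x := x) m)
      rw [this, Multiset.card_nsmul]
    rw [h5 _ _ hs0, h5 _ _ hg0] at h4
    have h6 : 1 ≤ (factors s).card := by
      by_contra h7
      have h8 : factors s = 0 := Multiset.card_eq_zero.mp (by omega)
      have h9 := factors_prod hs0
      rw [h8, Multiset.prod_zero] at h9
      exact hns (h9.isUnit isUnit_one)
    have : Q * 1 ≤ Q * (factors s).card := Nat.mul_le_mul_left _ h6
    omega
  obtain ⟨u, rfl⟩ := hsu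
  refine ⟨r * ↑u⁻¹, ?_⟩
  rw [map_mul, ← h1, mul_assoc, ← map_mul, Units.mul_inv, map_one, mul_one]

end Pow

end FD
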