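import Pool.Agent.Lib.FD.Diag

set_option autoImplicit false

namespace FD

open Finset TensorProduct

section Twist

variable {p : ℕ} [hp : Fact p.Prime] {k : Type*} [Field k] {n : ℕ}

theorem mon_mem_chart {i : Fin n} {ε : ℤˣ} {a : Fin n → ℤ} (ha : 0 ≤ (ε : ℤ) * a i) :
    mon k a ∈ chart k i ε := by
  intro b hb
  rw [mon, AddMonoidAlgebra.coeff_single] at hb
  have : b = a := by
    by_contra hne
    exact hb (by simp [hne])
  rw [this]
  exact ha

omit hp in
theorem twist {q : ℕ} {i : Fin n} {ε : ℤˣ} {Q : Torus k n →+ Torus k n} (hQ : IsLogOp p q i ε Q)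
    (a : Fin n → ℤ) {f : Torus k n} (hf : f ∈ chart k i ε) (hp0 : 1 ≤ p) :
    mon k (-a) * Q (mon k a * f) ∈ chart k i ε := by
  set E : Fin n → ℤ := Pi.single i (ε : ℤ) with hE
  have hEi : E i = (ε : ℤ) := by rw [hE, Pi.single_eq_same]
  set s := (a i).natAbs with hs
  have hεa : |(ε : ℤ) * a i| = s := by
    rcases Int.units_eq_one_or ε with rfl | rfl
    · simp [hs]
    · simp [hs]
  have hps : (s : ℤ) ≤ (p : ℤ) ^ q * s := by
    have h1 : (1 : ℤ) ≤ (p : ℤ) ^ q := by exact_mod_cast Nat.one_le_pow _ _ hp0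
    have h2 : (0 : ℤ) ≤ s := Int.natCast_nonneg _
    nlinarith
  obtain ⟨l, hl⟩ : ∃ l : ℕ, (l : ℤ) = (ε : ℤ) * a i + p ^ q * s := by
    refine ⟨((ε : ℤ) * a i + p ^ q * s).toNat, Int.toNat_of_nonneg ?_⟩
    have := neg_abs_le ((ε : ℤ) * a i)
    rw [hεa] at this
    linarith
  set a0 : Fin n → ℤ := a - ((ε : ℤ) * a i) • E with ha0
  have ha0i : a0 i = 0 := by
    rw [ha0, Pi.sub_apply, Pi.smul_apply, hEi, smul_eq_mul]
    have := eps_mul_eps ε
    linear_combination (-(a i)) * this
  have hmem : mon k a0 * f ∈ chart k i ε :=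
    mul_mem (mon_mem_chart (by rw [ha0i, mul_zero])) hf
  obtain ⟨g, hg, hgeq⟩ := hQ.2 l _ hmem
  have h1 : eqn k i ε ^ l * (mon k a0 * f) = (eqn k i ε ^ s) ^ p ^ q * (mon k a * f) := by
    rw [eqn_pow, ← mul_assoc, mon_mul_mon, ← pow_mul, eqn_pow, ← mul_assoc, mon_mul_mon]
    congr 2
    rw [ha0]
    have h2 : (l • E : Fin n → ℤ) = (l : ℤ) • E := (natCast_zsmul _ _).symm
    have h3 : ((s * p ^ q) • E : Fin n → ℤ) = ((s : ℤ) * (p : ℤ) ^ q) • E := by
      rw [← natCast_zsmul]
      push_cast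
      rfl
    rw [h2, h3, hl, add_smul]
    have h4 : ((p : ℤ) ^ q * s) = s * (p : ℤ) ^ q := mul_comm _ _
    rw [h4]
    abel
  rw [h1, hQ.1] at hgeq
  have hinv : mon k (-((s * p ^ q) • E)) * (eqn k i ε ^ s) ^ p ^ q = 1 := by
    rw [← pow_mul, eqn_pow, mon_mul_mon, neg_add_cancel, mon_zero]
  have h5 : Q (mon k a * f) = mon k (-((s * p ^ q) • E)) * (eqn k i ε ^ l * g) := by
    rw [← hgeq, ← mul_assoc, hinv, one_mul]
  have h6 : mon k (-a) * Q (mon k a * f) = mon k (-a0) * g := by
    rw [h5, eqn_pow, ← mul_assoc, ← mul_assoc, mon_mul_mon, mon_mul_mon]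
    congr 2
    rw [ha0]
    have h2 : (l • E : Fin n → ℤ) = (l : ℤ) • E := (natCast_zsmul _ _).symm
    have h3 : ((s * p ^ q) • E : Fin n → ℤ) = ((s : ℤ) * (p : ℤ) ^ q) • E := by
      rw [← natCast_zsmul]
      push_cast
      rfl
    rw [h2, h3, hl, add_smul]
    have h4 : ((p : ℤ) ^ q * s) = s * (p : ℤ) ^ q := mul_comm _ _
    rw [h4]
    abel
  rw [h6]
  exact mul_mem (mon_mem_chart (by rw [Pi.neg_apply, ha0i, neg_zero, mul_zero])) hg

theorem twist_unit [IsAlgClosed k] {q : ℕ} {i : Fin n} {ε : ℤˣ} {Q : Torus k n →+ Torus k n}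
    (hQ : IsLogOp p q i ε Q) (u : (Torus k n)ˣ) {f : Torus k n} (hf : f ∈ chart k i ε) :
    u.inv * Q (u.val * f) ∈ chart k i ε := by
  obtain ⟨c, a, hc, hu⟩ := unit_form u
  obtain ⟨c', hc'⟩ := IsAlgClosed.exists_pow_nat_eq c (pow_pos hp.out.pos q)
  have hinv : u.inv = algebraMap k (Torus k n) c⁻¹ * mon k (-a) := by
    have h1 : u.val * (algebraMap k (Torus k n) c⁻¹ * mon k (-a)) = 1 := by
      rw [hu]
      have h2 : algebraMap k (Torus k n) c * algebraMap k (Torus k n) c⁻¹ = 1 := by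
        rw [← map_mul, mul_inv_cancel₀ hc, map_one]
      have h3 := mon_mul_neg (k := k) a
      calc _ = (algebraMap k (Torus k n) c * algebraMap k (Torus k n) c⁻¹) *
            (mon k (-a) * mon k a) := by ring
        _ = 1 := by rw [h2, h3, one_mul]
    calc u.inv = u.inv * (u.val * (algebraMap k (Torus k n) c⁻¹ * mon k (-a))) := by
          rw [h1, mul_one]
      _ = _ := by rw [← mul_assoc, u.inv_val, one_mul]
  have h4 : Q (u.val * f) = algebraMap k (Torus k n) c * Q (mon k a * f) := by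
    rw [hu, mul_assoc]
    have h5 : algebraMap k (Torus k n) c = algebraMap k (Torus k n) c' ^ p ^ q := by
      rw [← map_pow, hc']
    rw [h5, hQ.1]
  have h6 : algebraMap k (Torus k n) c⁻¹ * algebraMap k (Torus k n) c = 1 := by
    rw [← map_mul, inv_mul_cancel₀ hc, map_one]
  have h7 : u.inv * Q (u.val * f) = mon k (-a) * Q (mon k a * f) := by
    rw [hinv, h4]
    calc _ = (algebraMap k (Torus k n) c⁻¹ * algebraMap k (Torus k n) c) *
          (mon k (-a) * Q (mon k a * f)) := by ring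
      _ = _ := by rw [h6, one_mul]
  rw [h7]
  exact twist hQ a hf hp.out.one_le

/-- diagonal F-divided bundles on the torus are regular singular -/
theorem IsDiag.regularTorus [IsAlgClosed k] {V : Type*} [AddCommGroup V] [Module (Torus k n) V]
    {T : FDiv p (Torus k n) V} {d : ℕ} {b : Module.Basis (Fin d) (Torus k n) V}
    {u : Fin d → ℕ → (Torus k n)ˣ} (hT : IsDiag T b u) : RegularTorus T := by
  classical
  intro i ε
  refine ⟨Submodule.span (chart k i ε) (Set.range b), ?_, ?_, ?_⟩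
  · exact Submodule.fg_span (Set.finite_range b)
  · apply le_antisymm le_top
    rw [← b.span_eq]
    exact Submodule.span_mono Submodule.subset_span
  · intro q Q Q' hQ hQ' v hv
    have key : ∀ (f : Torus k n) (l : Fin d), f ∈ chart k i ε →
        Q' (f • b l) ∈ Submodule.span (chart k i ε) (Set.range b) := by
      intro f l hf
      have h1 : (u l q).inv • b l ∈ T.F q := by
        rw [hT q]
        intro m
        rw [map_smul, Finsupp.smul_apply, Module.Basis.repr_self]
        by_cases h : l = m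
        · subst h
          rw [Finsupp.single_eq_same, smul_eq_mul, mul_one]
          exact ⟨1, by rw [one_pow]; exact (u l q).val_inv.symm⟩
        · rw [Finsupp.single_eq_of_ne (Ne.symm h), smul_zero, mul_zero]
          exact ⟨0, zero_pow (pow_ne_zero _ hp.out.ne_zero)⟩
      have h2 : f • b l = ((u l q).val * f) • (u l q).inv • b l := by
        rw [smul_smul, mul_right_comm, (u l q).val_inv, one_mul]
      rw [h2, hQ' _ _ h1, smul_smul, mul_comm]
      have h3 := twist_unit hQ (u l q) hf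
      exact Submodule.smul_mem _ (⟨_, h3⟩ : chart k i ε) (Submodule.subset_span ⟨l, rfl⟩)
    obtain ⟨c, rfl⟩ := (Submodule.mem_span_range_iff_exists_fun _).mp hv
    rw [map_sum]
    exact Submodule.sum_mem _ fun l _ => key (c l) l (c l).2

end Twist

section Reg

variable {p : ℕ} [hp : Fact p.Prime] {k : Type*} [Field k] [CharP k p] [IsAlgClosed k] {n : ℕ}
  {B : Type*} [CommRing B] [Algebra B (Torus k n)] {M : Type*} [AddCommGroup M] [Module B M]
  {S : FDiv p B M}

theorem IsDiag.regular {d : ℕ} {b : Module.Basis (Fin d) B M} {u : Fin d → ℕ → Bˣ}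
    (hu : ∀ i, Coh p (u i)) (hS : IsDiag S b u) : Regular k n S := by
  have hD := isDiag_diagFDiv (p := p) (b.baseChange (Torus k n))
      (fun i q => Units.map (algebraMap B (Torus k n)).toMonoidHom (u i q))
      fun i => (hu i).map (algebraMap B (Torus k n))
  refine ⟨diagFDiv (b.baseChange (Torus k n))
      (fun i q => Units.map (algebraMap B (Torus k n)).toMonoidHom (u i q))
      (fun i => (hu i).map (algebraMap B (Torus k n))), ?_, hD.regularTorus⟩
  refine isPull_of_diag (β := fun _ => 1) hS hD hp.out.ne_zero ?_ ?_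
  · intro i
    rw [Units.val_one, one_smul, Module.Basis.baseChange_apply]
    rfl
  · exact fun i q => ⟨1, by rw [mul_one, one_pow, mul_one]⟩

variable [IsDomain B] [UniqueFactorizationMonoid B] (g : B) [IsLocalization.Away g (Torus k n)]

include g in
theorem Regular.exists_diag (h : Regular k n S) :
    ∃ (d : ℕ) (b : Module.Basis (Fin d) B M) (u : Fin d → ℕ → Bˣ),
      (∀ i, Coh p (u i)) ∧ IsDiag S b u := by
  obtain ⟨T, hT, hreg⟩ := h
  exact FD.exists_diag g hT hreg

end Reg

end FD
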