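import Pool.Agent.Lib.FD.Prim
import Mathlib.RingTheory.TensorProduct.IsBaseChangeFree

set_option autoImplicit false

namespace FD

open Finset

/-- `S` is diagonal with respect to the basis `b` and the units `u i q`: `F q = ⊕ B^(p^q) u_(i,q)^(-1) b_i`. -/
def IsDiag {p : ℕ} {B M : Type*} [CommRing B] [AddCommGroup M] [Module B M] (S : FDiv p B M)
    {d : ℕ} (b : Module.Basis (Fin d) B M) (u : Fin d → ℕ → Bˣ) : Prop :=
  ∀ (q : ℕ) (m : M), m ∈ S.F q ↔ ∀ i, IsPow p q ((u i q : B) * b.repr m i)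

/-- coherent sequences of units -/
def Coh {B : Type*} [CommRing B] (p : ℕ) (u : ℕ → Bˣ) : Prop :=
  ∀ q, ∃ c : Bˣ, u (q + 1) = u q * c ^ p ^ q

section Pull

variable {p : ℕ} {A B M N : Type*} [CommRing A] [CommRing B] [Algebra A B] [AddCommGroup M]
    [Module A M] [AddCommGroup N] [Module B N] [Module A N] [IsScalarTower A B N]
    {S : FDiv p A M} {T : FDiv p B N} {ι : M →ₗ[A] N} (h : IsPull S T ι)

include h in
theorem IsPull.exists_ext (ξ : M →ₗ[A] A) : ∃ ξ' : N →ₗ[B] B, ∀ m : M, ξ' (ι m) = algebraMap A B (ξ m) :=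
  ⟨h.1.lift ((Algebra.linearMap A B).comp ξ), fun m => h.1.lift_eq _ _⟩

include h in
theorem IsPull.map_mem {q : ℕ} {m : M} (hm : m ∈ S.F q) : ι m ∈ T.F q := by
  rw [h.2 q]
  exact AddSubgroup.subset_closure ⟨1, m, hm, by rw [one_pow, one_smul]⟩

end Pull

section Loc

variable {p : ℕ} {k : Type*} [Field k] {n : ℕ} {B : Type*} [CommRing B] [IsDomain B]
  [UniqueFactorizationMonoid B] [Algebra B (Torus k n)] (g : B) [IsLocalization.Away g (Torus k n)]
  {M : Type*} [AddCommGroup M] [Module B M] {S : FDiv p B M} {V : Type*} [AddCommGroup V]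
  [Module (Torus k n) V] [Module B V] [IsScalarTower B (Torus k n) V] {T : FDiv p (Torus k n) V}
  {j : M →ₗ[B] V} (hj : IsPull S T j)

include g hj in
omit [UniqueFactorizationMonoid B] in
theorem j_inj : Function.Injective j := by
  rw [injective_iff_map_eq_zero]
  intro m hm
  obtain ⟨d, e, ξ, hsum⟩ := S.exists_coords
  rw [← hsum m]
  apply Finset.sum_eq_zero
  intro i _
  obtain ⟨ξ', hξ'⟩ := hj.exists_ext (ξ i)
  have h1 := hξ' m
  rw [hm, map_zero] at h1
  have h2 : ξ i m = 0 := inj (Torus k n) g (by rw [← h1, map_zero])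
  rw [h2, zero_smul]

include g hj in
omit [IsDomain B] [UniqueFactorizationMonoid B] in
theorem exists_clear (v : V) : ∃ (N : ℕ) (m : M), algebraMap B (Torus k n) g ^ N • v = j m := by
  induction v using hj.1.inductionOn with
  | zero => exact ⟨0, 0, by rw [smul_zero, map_zero]⟩
  | tmul m => exact ⟨0, m, by rw [pow_zero, one_smul]⟩
  | smul s v ih =>
    obtain ⟨N, m, hm⟩ := ih
    obtain ⟨a, b, hab⟩ := IsLocalization.Away.surj g s
    refine ⟨N + a, b • m, ?_⟩
    rw [map_smul, ← hm, ← algebraMap_smul (Torus k n) b, ← hab, smul_smul, smul_smul]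
    congr 1
    ring
  | add v w hv hw =>
    obtain ⟨N, m, hm⟩ := hv
    obtain ⟨N', m', hm'⟩ := hw
    refine ⟨N + N', g ^ N' • m + g ^ N • m', ?_⟩
    rw [map_add, map_smul, map_smul, ← hm, ← hm', smul_add, ← algebraMap_smul (Torus k n) (g ^ N'),
      ← algebraMap_smul (Torus k n) (g ^ N), smul_smul, smul_smul, map_pow, map_pow]
    congr 2
    · ring
    · ring

include g hj in
omit [IsDomain B] [UniqueFactorizationMonoid B] in
theorem exists_clear_F {q : ℕ} {v : V} (hv : v ∈ T.F q) :
    ∃ (N : ℕ) (m : M), m ∈ S.F q ∧ (algebraMap B (Torus k n) g ^ N) ^ p ^ q • v = j m := by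
  rw [hj.2 q] at hv
  induction hv using AddSubgroup.closure_induction with
  | mem x hx =>
    obtain ⟨c, m, hm, rfl⟩ := hx
    obtain ⟨a, b, hab⟩ := IsLocalization.Away.surj g c
    refine ⟨a, b ^ p ^ q • m, S.pow_smul q _ _ hm, ?_⟩
    rw [map_smul, ← algebraMap_smul (Torus k n) (b ^ p ^ q), map_pow, ← hab, smul_smul]
    congr 1
    ring
  | zero => exact ⟨0, 0, zero_mem _, by rw [smul_zero, map_zero]⟩
  | add v w _ _ hv hw =>
    obtain ⟨N, m, hm, hm1⟩ := hv
    obtain ⟨N', m', hm', hm1'⟩ := hw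
    refine ⟨N + N', (g ^ N') ^ p ^ q • m + (g ^ N) ^ p ^ q • m',
      add_mem (S.pow_smul q _ _ hm) (S.pow_smul q _ _ hm'), ?_⟩
    rw [map_add, map_smul, map_smul, ← hm1, ← hm1', smul_add,
      ← algebraMap_smul (Torus k n) ((g ^ N') ^ p ^ q),
      ← algebraMap_smul (Torus k n) ((g ^ N) ^ p ^ q), smul_smul, smul_smul, map_pow, map_pow,
      map_pow, map_pow]
    congr 2
    · ring
    · ring
  | neg v _ hv =>
    obtain ⟨N, m, hm, hm1⟩ := hv
    exact ⟨N, -m, neg_mem hm, by rw [smul_neg, hm1, map_neg]⟩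

include g hj in
/-- a suitable unit multiple of a basis element of `V` is primitive in `M` -/
theorem exists_y {d : ℕ} (b : Module.Basis (Fin d) (Torus k n) V) (i : Fin d) :
    ∃ (m : M) (y : (Torus k n)ˣ), j m = (y : Torus k n) • b i ∧ Prim B m := by
  obtain ⟨N, m0, hm0⟩ := exists_clear g hj (b i)
  obtain ⟨d', e, ξ, hsum⟩ := S.exists_coords
  have hgu : IsUnit (algebraMap B (Torus k n) g ^ N) :=
    (IsLocalization.Away.algebraMap_isUnit g).pow N
  have hb0 : b i ≠ 0 := b.ne_zero i
  have hm0' : m0 ≠ 0 := by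
    rintro rfl
    rw [map_zero] at hm0
    apply hb0
    obtain ⟨w, hw⟩ := hgu
    rw [← hw] at hm0
    have := congrArg (fun v => (↑w⁻¹ : Torus k n) • v) hm0
    simpa only [smul_smul, Units.inv_mul, one_smul, smul_zero] using this
  obtain ⟨D, m, hD, hDm, hprim⟩ := exists_prim hsum hm0'
  have h1 : algebraMap B (Torus k n) D • j m = algebraMap B (Torus k n) g ^ N • b i := by
    rw [hm0, hDm, map_smul, algebraMap_smul]
  have hDu : IsUnit (algebraMap B (Torus k n) D) := by
    have h2 := congrArg (fun v => b.repr v i) h1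
    simp only [map_smul, Finsupp.smul_apply, Module.Basis.repr_self, Finsupp.single_eq_same,
      smul_eq_mul, mul_one] at h2
    apply isUnit_of_dvd_unit _ hgu
    exact ⟨_, h2.symm⟩
  obtain ⟨D', hD'⟩ := hDu
  obtain ⟨G, hG⟩ := hgu
  refine ⟨m, D'⁻¹ * G, ?_, hprim⟩
  rw [Units.val_mul, mul_smul, hG, ← h1, ← hD', smul_smul, Units.inv_mul, one_smul]

include g hj in
/-- such an element is a unit times an element of `F q` -/
theorem exists_u (hp : p ≠ 0) {q : ℕ} {m : M} (hprim : Prim B m) {v : V} (hv : v ∈ T.F q)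
    {y : (Torus k n)ˣ} (hm : j m = (y : Torus k n) • v) :
    ∃ (u : Bˣ) (w : M), w ∈ S.F q ∧ m = (u : B) • w := by
  obtain ⟨d, e, ξ, hsum⟩ := S.exists_coords
  have hinj := j_inj g hj
  obtain ⟨N, w0, hw0, hN⟩ := exists_clear_F g hj hv
  obtain ⟨a, b, hab⟩ := IsLocalization.Away.surj g (y : Torus k n)
  have hg0 := g_ne_zero (Torus k n) g
  have hH0 : g ^ (N * p ^ q + a) ≠ 0 := pow_ne_zero _ hg0
  have h1 : g ^ (N * p ^ q + a) • m = b • w0 := by
    apply hinj
    rw [map_smul, map_smul, hm, ← hN, ← algebraMap_smul (Torus k n) b, ← hab,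
      ← algebraMap_smul (Torus k n) (g ^ (N * p ^ q + a)), smul_smul, smul_smul, map_pow]
    congr 1
    ring
  have hm0 : m ≠ 0 := by
    rintro rfl
    exact not_isUnit_zero (hprim 0 0 (by rw [smul_zero]))
  have hw00 : w0 ≠ 0 := by
    rintro rfl
    rw [smul_zero] at h1
    apply hm0
    apply smul_cancel hsum hH0
    rw [h1, smul_zero]
  obtain ⟨D, w, hD, hw, hDw, hwprim⟩ := exists_prim_F S q hp hw00 hw0
  rw [hDw, smul_smul] at h1
  have h2 := hprim.dvd hsum h1
  have h3 := hwprim.dvd hsum h1.symm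
  obtain ⟨u, hu⟩ := (associated_of_dvd_dvd h3 h2)
  refine ⟨u, w, hw, ?_⟩
  apply smul_cancel hsum hH0
  rw [h1, smul_smul, hu]

end Loc

section Main

variable {p : ℕ} [hp : Fact p.Prime] {k : Type*} [Field k] [CharP k p] [IsAlgClosed k] {n : ℕ}

theorem coord_isPow {V : Type*} [AddCommGroup V] [Module (Torus k n) V]
    (T : FDiv p (Torus k n) V) {d : ℕ} (b : Module.Basis (Fin d) (Torus k n) V) {q : ℕ}
    (hb : ∀ i, b i ∈ T.F q) {v : V} (hv : v ∈ T.F q) (i : Fin d) : IsPow p q (b.repr v i) := by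
  apply isPow_of_proj
  have h1 := P_zero_of_mem T q hv
  have h2 : P T q 0 v = ∑ l, proj k p q 0 (b.repr v l) • b l := by
    conv_lhs => rw [← b.sum_repr v]
    rw [map_sum]
    exact Finset.sum_congr rfl fun l _ => P_smul T q 0 _ (hb l)
  rw [h1] at h2
  have h3 := congrArg (fun w => b.repr w i) h2
  simp only [map_sum, map_smul, Finsupp.coe_finsetSum, Finset.sum_apply, Finsupp.smul_apply,
    Module.Basis.repr_self, smul_eq_mul] at h3
  rw [Finset.sum_eq_single i] at h3
  · rw [Finsupp.single_eq_same, mul_one] at h3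
    exact h3.symm
  · intro l _ hl
    rw [Finsupp.single_eq_of_ne (Ne.symm hl), mul_zero]
  · simp

/-- the monomial `x^a` as a unit -/
noncomputable def monU (k : Type*) [Field k] {n : ℕ} (a : Fin n → ℤ) : (Torus k n)ˣ where
  val := mon k a
  inv := mon k (-a)
  val_inv := by rw [mon_mul_mon, add_neg_cancel, mon_zero]
  inv_val := by rw [mon_mul_mon, neg_add_cancel, mon_zero]

theorem IsPow.isUnit {B : Type*} [CommRing B] {q : ℕ} {x : B} (h : IsPow p q x) (hx : IsUnit x) :
    ∃ c : Bˣ, (c : B) ^ p ^ q = x := by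
  obtain ⟨c, rfl⟩ := h
  obtain ⟨c', rfl⟩ := (isUnit_pow_iff (pow_ne_zero q hp.out.ne_zero)).mp hx
  exact ⟨c', rfl⟩

variable {B : Type*} [CommRing B] [IsDomain B]
  [UniqueFactorizationMonoid B] [Algebra B (Torus k n)] (g : B) [IsLocalization.Away g (Torus k n)]
  {M : Type*} [AddCommGroup M] [Module B M] {S : FDiv p B M} {V : Type*} [AddCommGroup V]
  [Module (Torus k n) V] [Module B V] [IsScalarTower B (Torus k n) V] {T : FDiv p (Torus k n) V}
  {j : M →ₗ[B] V} (hj : IsPull S T j)

include g hj in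
/-- an F-divided bundle on a factorial variety, regular singular on the torus, is diagonal -/
theorem exists_diag (hreg : RegularTorus T) :
    ∃ (d : ℕ) (b : Module.Basis (Fin d) B M) (u : Fin d → ℕ → Bˣ),
      (∀ i, Coh p (u i)) ∧ IsDiag S b u := by
  classical
  have hinjL := inj (Torus k n) g
  have hinj := j_inj g hj
  obtain ⟨d, b, γ, hγ⟩ : ∃ (d : ℕ) (b : Module.Basis (Fin d) (Torus k n) V)
      (γ : Fin d → ℕ → Fin n → ℤ), ∀ i, b i ∈ Vg T (γ i) := by
    let i1 : Module k V := Module.compHom V (algebraMap k (Torus k n))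
    have i2 : IsScalarTower k (Torus k n) V := ⟨fun r f v => by
      rw [Algebra.smul_def, mul_smul]; rfl⟩
    exact exists_basis T hreg
  choose m y hm hprim using fun i => exists_y g hj b i
  have hex : ∀ i q, ∃ (u : Bˣ) (w : M), w ∈ S.F q ∧ m i = (u : B) • w := by
    intro i q
    obtain ⟨v, hv, hbv⟩ := exists_of_P T (hγ i q)
    refine exists_u g hj hp.out.ne_zero (hprim i) hv (y := y i * monU k (γ i q)) ?_
    rw [hm i, hbv, Units.val_mul, mul_smul]
    rfl
  choose u w hw hmw using hex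
  set b' := b.unitsSMul y with hb'
  have hb'm : ∀ i, b' i = j (m i) := fun i => by
    rw [hb', Module.Basis.unitsSMul_apply, hm i]
    rfl
  -- coordinates of elements of level `q`
  have hA : ∀ (q : ℕ), ∀ x ∈ S.F q, ∀ i,
      IsPow p q (algebraMap B (Torus k n) (u i q) * b'.repr (j x) i) := by
    intro q x hx i
    set U : Fin d → (Torus k n)ˣ := fun i => (Units.map (algebraMap B (Torus k n)).toMonoidHom
      (u i q))⁻¹ with hU
    set b'' := b'.unitsSMul U with hb''
    have h1 : ∀ i, b'' i ∈ T.F q := by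
      intro i
      have h2 : b'' i = j (w i q) := by
        rw [hb'', Module.Basis.unitsSMul_apply, hb'm, hmw i q, map_smul,
          ← algebraMap_smul (Torus k n) (u i q : B), Units.smul_def, smul_smul]
        have h3 : ((U i : (Torus k n)ˣ) : Torus k n) * algebraMap B (Torus k n) (u i q) = 1 := by
          have : algebraMap B (Torus k n) (u i q)
            = ((Units.map (algebraMap B (Torus k n)).toMonoidHom (u i q) : (Torus k n)ˣ) : Torus k n) := rfl
          rw [this, hU, Units.inv_mul]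
        rw [h3, one_smul]
      rw [h2]
      exact hj.map_mem (hw i q)
    have h4 := coord_isPow T b'' h1 (hj.map_mem hx) i
    rw [hb'', Module.Basis.repr_unitsSMul, hU, inv_inv, Units.smul_def, smul_eq_mul] at h4
    exact h4
  -- bounded denominators
  obtain ⟨N, hN⟩ : ∃ N : ℕ, ∀ i x, ∃ c : B,
      algebraMap B (Torus k n) g ^ N * b'.repr (j x) i = algebraMap B (Torus k n) c := by
    obtain ⟨d', e, ξ, hsum⟩ := S.exists_coords
    choose a β hβ using fun i l => IsLocalization.Away.surj g (b'.repr (j (e l)) i)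
    refine ⟨∑ i, ∑ l, a i l, ?_⟩
    intro i x
    have hle : ∀ l, a i l ≤ ∑ i, ∑ l, a i l := fun l =>
      (Finset.single_le_sum (f := fun l => a i l) (fun _ _ => Nat.zero_le _)
        (Finset.mem_univ l)).trans
      (Finset.single_le_sum (f := fun i => ∑ l, a i l) (fun _ _ => Nat.zero_le _)
        (Finset.mem_univ i))
    set N := ∑ i, ∑ l, a i l with hNdef
    refine ⟨∑ l, ξ l x * (g ^ (N - a i l) * β i l), ?_⟩
    have h1 : b'.repr (j x) i = ∑ l, algebraMap B (Torus k n) (ξ l x) * b'.repr (j (e l)) i := by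
      conv_lhs => rw [← hsum x]
      simp only [map_sum, map_smul, Finsupp.coe_finsetSum, Finset.sum_apply]
      apply Finset.sum_congr rfl
      intro l _
      rw [← algebraMap_smul (Torus k n) (ξ l x), map_smul, Finsupp.smul_apply, smul_eq_mul]
    rw [h1, Finset.mul_sum, map_sum]
    apply Finset.sum_congr rfl
    intro l _
    rw [map_mul, map_mul, map_pow, ← hβ i l]
    have h2 : algebraMap B (Torus k n) g ^ N = algebraMap B (Torus k n) g ^ (N - a i l) *
        algebraMap B (Torus k n) g ^ a i l := by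
      rw [← pow_add, Nat.sub_add_cancel (hle l)]
    rw [h2]
    ring
  -- the coordinates are in `B`
  have hC : ∀ i x, ∃ c : B, algebraMap B (Torus k n) c = b'.repr (j x) i := by
    intro i x
    set q := N * (UniqueFactorizationMonoid.factors g).card with hq
    have hlt : N * (UniqueFactorizationMonoid.factors g).card < p ^ q :=
      Nat.lt_pow_self hp.out.one_lt
    induction x using induction_level S q with
    | h0 => exact ⟨0, by simp⟩
    | hadd x y hx hy =>
      obtain ⟨c, hc⟩ := hx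
      obtain ⟨c', hc'⟩ := hy
      exact ⟨c + c', by rw [map_add, hc, hc', map_add, map_add, Finsupp.add_apply]⟩
    | hsmul f x hx =>
      obtain ⟨h, hh⟩ := hA q x hx i
      obtain ⟨c, hc⟩ := hN i x
      obtain ⟨r, hr⟩ := mem_of_pow g (N := N) (Q := p ^ q) (h := h) (c := u i q * c)
        (by rw [hh, map_mul, ← hc]; ring) hlt
      refine ⟨f * (↑(u i q)⁻¹ * r ^ p ^ q), ?_⟩
      rw [map_mul, map_mul, map_pow, hr, hh, ← mul_assoc (algebraMap B (Torus k n) ↑(u i q)⁻¹),
        ← map_mul (algebraMap B (Torus k n)) ↑(u i q)⁻¹, Units.inv_mul, map_one, one_mul,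
        map_smul, ← algebraMap_smul (Torus k n) f, map_smul, Finsupp.smul_apply, smul_eq_mul]
  have hli : LinearIndependent B m := by
    rw [Fintype.linearIndependent_iff]
    intro c hc i
    have h1 := congrArg j hc
    rw [map_sum, map_zero] at h1
    have h2 : ∑ i, algebraMap B (Torus k n) (c i) • b' i = 0 := by
      rw [← h1]
      apply Finset.sum_congr rfl
      intro i _
      rw [map_smul, algebraMap_smul, hb'm]
    have h3 := Fintype.linearIndependent_iff.mp b'.linearIndependent _ h2 i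
    exact hinjL (by rw [h3, map_zero])
  have hexp : ∀ x, ∃ c : Fin d → B, x = ∑ i, c i • m i := by
    intro x
    choose c hc using fun i => hC i x
    refine ⟨c, ?_⟩
    apply hinj
    rw [map_sum]
    conv_lhs => rw [← b'.sum_repr (j x)]
    apply Finset.sum_congr rfl
    intro i _
    rw [← hc i, map_smul, algebraMap_smul, hb'm]
  set bM : Module.Basis (Fin d) B M := Module.Basis.mk hli (by
    intro x _
    obtain ⟨c, hc⟩ := hexp x
    rw [hc]
    exact Submodule.sum_mem _ fun i _ => Submodule.smul_mem _ _ (Submodule.subset_span ⟨i, rfl⟩))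
    with hbM
  have hbMm : ∀ i, bM i = m i := fun i => by rw [hbM, Module.Basis.mk_apply]
  have hrepr : ∀ x i, algebraMap B (Torus k n) (bM.repr x i) = b'.repr (j x) i := by
    intro x i
    conv_rhs => rw [← bM.sum_repr x]
    have h1 : j (∑ l, bM.repr x l • bM l) = ∑ l, algebraMap B (Torus k n) (bM.repr x l) • b' l := by
      rw [map_sum]
      apply Finset.sum_congr rfl
      intro l _
      rw [map_smul, algebraMap_smul, hb'm, hbMm]
    rw [h1, b'.repr_sum_self]
  have hdiag : IsDiag S bM u := by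
    intro q x
    constructor
    · intro hx i
      obtain ⟨h, hh⟩ := hA q x hx i
      rw [← hrepr, ← map_mul] at hh
      obtain ⟨r, hr⟩ := mem_of_pow g (N := 0) (Q := p ^ q) (h := h) (c := u i q * bM.repr x i)
        (by rw [pow_zero, one_mul, hh]) (by rw [zero_mul]; exact pow_pos hp.out.pos q)
      refine ⟨r, hinjL ?_⟩
      rw [map_pow, hr, hh]
    · intro hx
      rw [← bM.sum_repr x]
      apply AddSubgroup.sum_mem
      intro i _
      obtain ⟨c, hc⟩ := hx i
      rw [hbMm, hmw i q, smul_smul, mul_comm, ← hc]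
      exact S.pow_smul q _ _ (hw i q)
  refine ⟨d, bM, u, ?_, hdiag⟩
  intro i q
  have h1 := (hdiag q (w i (q + 1))).mp (S.anti q (hw i (q + 1))) i
  have h2 : w i (q + 1) = (↑(u i (q + 1))⁻¹ : B) • bM i := by
    rw [hbMm, hmw i (q + 1), smul_smul, Units.inv_mul, one_smul]
  rw [h2, map_smul, Finsupp.smul_apply, Module.Basis.repr_self, Finsupp.single_eq_same,
    smul_eq_mul, mul_one] at h1
  obtain ⟨c, hc⟩ := h1.isUnit ((u i q * (u i (q + 1))⁻¹ : Bˣ).isUnit)
  refine ⟨c⁻¹, ?_⟩
  have h3 : c ^ p ^ q = u i q * (u i (q + 1))⁻¹ := by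
    ext
    rw [Units.val_pow_eq_pow_val, hc]
    rfl
  rw [inv_pow, h3, mul_inv, inv_inv]
  group

end Main

end FD
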