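import Pool.Agent.Lib.FD.Struct

set_option autoImplicit false

namespace FD

open Finset

section Units

variable {k : Type*} [Field k] {n : ℕ}

theorem coeff_one (b : Fin n → ℤ) (hb : b ≠ 0) : (1 : Torus k n).coeff b = 0 := by
  have : (1 : Torus k n) = AddMonoidAlgebra.single 0 1 := rfl
  rw [this, AddMonoidAlgebra.coeff_single]
  exact Finsupp.single_eq_of_ne hb

/-- the units of the torus are the monomials -/
theorem unit_form (f : (Torus k n)ˣ) : ∃ (c : k) (a : Fin n → ℤ), c ≠ 0 ∧
    f.val = algebraMap k (Torus k n) c * mon k a := by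
  classical
  set x : Torus k n := f.val with hx
  set y : Torus k n := f.inv with hy
  have hxy : x * y = 1 := f.val_inv
  have hx0 : x ≠ 0 := f.ne_zero
  have hy0 : y ≠ 0 := (f⁻¹).ne_zero
  have hA : x.coeff.support.Nonempty := by
    rw [Finsupp.support_nonempty_iff]
    exact fun h => hx0 (AddMonoidAlgebra.coeff_eq_zero.mp h)
  have hB : y.coeff.support.Nonempty := by
    rw [Finsupp.support_nonempty_iff]
    exact fun h => hy0 (AddMonoidAlgebra.coeff_eq_zero.mp h)
  have hle : x.coeff.support.card * y.coeff.support.card ≤ 1 := by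
    by_contra hlt
    push Not at hlt
    obtain ⟨p1, hp1, p2, hp2, hne, hu1, hu2⟩ := TwoUniqueSums.uniqueAdd_of_one_lt_card hlt
    obtain ⟨h11, h12⟩ := Finset.mem_product.mp hp1
    obtain ⟨h21, h22⟩ := Finset.mem_product.mp hp2
    have key : ∀ p : (Fin n → ℤ) × (Fin n → ℤ), p.1 ∈ x.coeff.support → p.2 ∈ y.coeff.support →
        UniqueAdd x.coeff.support y.coeff.support p.1 p.2 → p.1 + p.2 = 0 := by
      intro p h1 h2 hu
      by_contra h0
      have h3 := AddMonoidAlgebra.coeff_mul_add_of_uniqueAdd hu
      rw [hxy, coeff_one _ h0] at h3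
      exact mul_ne_zero (Finsupp.mem_support_iff.mp h1) (Finsupp.mem_support_iff.mp h2) h3.symm
    have e1 := key p1 h11 h12 hu1
    have e2 := key p2 h21 h22 hu2
    have := hu1 h21 h22 (by rw [e1, e2])
    exact hne (Prod.ext this.1.symm this.2.symm)
  have h1 : x.coeff.support.card = 1 := by
    have ha := hA.card_pos
    have hb := hB.card_pos
    nlinarith
  obtain ⟨a, ha⟩ := Finset.card_eq_one.mp h1
  refine ⟨x.coeff a, a, ?_, ?_⟩
  · exact Finsupp.mem_support_iff.mp (by rw [ha]; exact Finset.mem_singleton_self a)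
  · ext b
    rw [coeff_scalar_mul, mon, AddMonoidAlgebra.coeff_single]
    by_cases hab : a = b
    · subst hab
      simp
    · rw [Finsupp.single_eq_of_ne (Ne.symm hab), mul_zero]
      by_contra hb
      have := Finsupp.mem_support_iff.mpr hb
      rw [ha, Finset.mem_singleton] at this
      exact hab this.symm

end Units

end FD
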