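import Pool.Agent.Lib.FD.RegD

set_option autoImplicit false

namespace FD

open Finset

section Abs

variable {n : ℕ}

theorem nak (Z Y : AddSubgroup (Fin n → ℤ)) {ℓ : ℕ}
    (h : ∀ y ∈ Y, ∃ z ∈ Z, ∃ y' ∈ Y, y = z + ℓ • y') :
    ∃ r : ℤ, (ℓ : ℤ) ∣ r - 1 ∧ ∀ y ∈ Y, r • y ∈ Z := by
  have hfg : (AddSubgroup.toIntSubmodule Y).FG := IsNoetherian.noetherian _
  obtain ⟨r, hr, hle⟩ := Submodule.exists_sub_one_mem_and_smul_le_of_fg_of_le_sup
    (I := Ideal.span {(ℓ : ℤ)}) (N := AddSubgroup.toIntSubmodule Z)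
    (N' := AddSubgroup.toIntSubmodule Y) (P := AddSubgroup.toIntSubmodule Y) hfg le_rfl (by
      intro y hy
      obtain ⟨z, hz, y', hy', rfl⟩ := h y hy
      apply Submodule.add_mem
      · exact Submodule.mem_sup_left hz
      · apply Submodule.mem_sup_right
        rw [← natCast_zsmul]
        exact Submodule.smul_mem_smul (Ideal.mem_span_singleton_self _) hy')
  refine ⟨r, Ideal.mem_span_singleton.mp hr, fun y hy => ?_⟩
  exact hle (Submodule.smul_mem_pointwise_smul y r _ hy)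

theorem ne_zero_of_dvd {ℓ : ℕ} (hℓ : ℓ.Prime) {r : ℤ} (h : (ℓ : ℤ) ∣ r - 1) : r ≠ 0 := by
  rintro rfl
  rw [zero_sub, dvd_neg] at h
  have := Int.natAbs_dvd_natAbs.mpr h
  simp only [Int.natAbs_natCast, Int.natAbs_one, Nat.dvd_one] at this
  exact hℓ.one_lt.ne' this

theorem exists_prime_ne (p : ℕ) : ∃ ℓ : ℕ, ℓ.Prime ∧ ℓ ≠ p := by
  by_cases h : p = 2
  · exact ⟨3, Nat.prime_three, by omega⟩
  · exact ⟨2, Nat.prime_two, fun h' => h h'.symm⟩

/-- a quotient without `ℓ`-quotients for `ℓ ≠ p` is killed by a power of `p` -/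
theorem cok {p : ℕ} (hp : p.Prime) (Z Y : AddSubgroup (Fin n → ℤ))
    (h : ∀ ℓ : ℕ, ℓ.Prime → ℓ ≠ p → ∀ y ∈ Y, ∃ z ∈ Z, ∃ y' ∈ Y, y = z + ℓ • y') :
    ∃ s : ℕ, ∀ y ∈ Y, p ^ s • y ∈ Z := by
  obtain ⟨ℓ, hℓ, hℓp⟩ := exists_prime_ne p
  obtain ⟨r, hr, hrY⟩ := nak Z Y (h ℓ hℓ hℓp)
  have hr0 : r.natAbs ≠ 0 := Int.natAbs_ne_zero.mpr (ne_zero_of_dvd hℓ hr)
  have hN : ∀ y ∈ Y, r.natAbs • y ∈ Z := by
    intro y hy
    rcases Int.natAbs_eq r with h1 | h1
    · have := hrY y hy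
      rw [h1, natCast_zsmul] at this
      exact this
    · have := hrY y hy
      rw [h1, neg_smul, natCast_zsmul] at this
      exact neg_mem_iff.mp this
  obtain ⟨s, r', hr', hrs⟩ := Nat.exists_eq_pow_mul_and_not_dvd hr0 p hp.ne_one
  have key : ∀ m : ℕ, ¬ p ∣ m → ∀ y ∈ Y, ∃ z ∈ Z, ∃ y' ∈ Y, y = z + m • y' := by
    intro m
    induction m using induction_on_primes with
    | zero => intro h0; exact absurd (dvd_zero p) h0
    | one => exact fun _ y hy => ⟨0, zero_mem _, y, hy, by rw [one_smul, zero_add]⟩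
    | prime_mul ℓ a hℓ ih =>
      intro hnd y hy
      have h1 : ℓ ≠ p := by
        rintro rfl
        exact hnd (dvd_mul_right _ _)
      have h2 : ¬ p ∣ a := fun h3 => hnd (h3.mul_left _)
      obtain ⟨z, hz, y', hy', rfl⟩ := h ℓ hℓ h1 y hy
      obtain ⟨z', hz', y'', hy'', rfl⟩ := ih h2 y' hy'
      refine ⟨z + ℓ • z', add_mem hz (Z.nsmul_mem hz' _), y'', hy'', ?_⟩
      rw [smul_add, add_assoc, smul_smul]
  refine ⟨s, fun y hy => ?_⟩
  obtain ⟨z, hz, y', hy', rfl⟩ := key r' hr' y hy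
  rw [smul_add, smul_smul, ← hrs]
  exact add_mem (Z.nsmul_mem hz _) (hN y' hy')

end Abs

section Ex

variable {k : Type*} [Field k] {n : ℕ}

/-- the exponent of a unit of the torus -/
noncomputable def ex (u : (Torus k n)ˣ) : Fin n → ℤ := (unit_form u).choose_spec.choose

/-- the coefficient of a unit of the torus -/
noncomputable def co (u : (Torus k n)ˣ) : k := (unit_form u).choose

theorem co_ne_zero (u : (Torus k n)ˣ) : co u ≠ 0 := (unit_form u).choose_spec.choose_spec.1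

theorem unit_eq (u : (Torus k n)ˣ) : u.val = algebraMap k (Torus k n) (co u) * mon k (ex u) :=
  (unit_form u).choose_spec.choose_spec.2

theorem ex_unique {u : (Torus k n)ˣ} {c : k} {a : Fin n → ℤ} (hc : c ≠ 0)
    (h : u.val = algebraMap k (Torus k n) c * mon k a) : ex u = a := by
  by_contra hne
  have h1 := congrArg (fun f => f.coeff a) (h.symm.trans (unit_eq u))
  simp only [coeff_scalar_mul, mon, AddMonoidAlgebra.coeff_single, Finsupp.single_eq_same,
    mul_one] at h1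
  rw [Finsupp.single_eq_of_ne (Ne.symm hne), mul_zero] at h1
  exact hc h1

theorem ex_mul (u v : (Torus k n)ˣ) : ex (u * v) = ex u + ex v := by
  apply ex_unique (c := co u * co v) (mul_ne_zero (co_ne_zero u) (co_ne_zero v))
  have h1 : (u * v).val = u.val * v.val := rfl
  rw [h1, unit_eq u, unit_eq v, map_mul, ← mon_mul_mon]
  ring

theorem ex_const {u : (Torus k n)ˣ} {c : k} (hc : c ≠ 0)
    (h : u.val = algebraMap k (Torus k n) c) : ex u = 0 := by
  apply ex_unique hc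
  rw [h, mon_zero, mul_one]

theorem ex_one : ex (1 : (Torus k n)ˣ) = 0 := by
  apply ex_const one_ne_zero
  rw [map_one]
  rfl

theorem ex_zero_iff (u : (Torus k n)ˣ) :
    ex u = 0 ↔ ∃ c : k, c ≠ 0 ∧ u.val = algebraMap k (Torus k n) c := by
  constructor
  · intro h
    refine ⟨co u, co_ne_zero u, ?_⟩
    rw [unit_eq u, h, mon_zero, mul_one]
  · rintro ⟨c, hc, h⟩
    exact ex_const hc h

end Ex

section ExB

variable {k : Type*} [Field k] {n : ℕ} {B : Type*} [CommRing B] [Algebra B (Torus k n)]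

/-- the exponent of a unit of `B` -/
noncomputable def exB (k : Type*) [Field k] (n : ℕ) {B : Type*} [CommRing B]
    [Algebra B (Torus k n)] (b : Bˣ) : Fin n → ℤ :=
  ex (Units.map (algebraMap B (Torus k n)).toMonoidHom b)

theorem exB_mul (b c : Bˣ) : exB k n (b * c) = exB k n b + exB k n c := by
  rw [exB, map_mul, ex_mul]
  rfl

theorem exB_one : exB k n (1 : Bˣ) = 0 := by
  rw [exB, map_one, ex_one]

theorem exB_inv (b : Bˣ) : exB k n b⁻¹ = -exB k n b := by
  have h := exB_mul (k := k) (n := n) b⁻¹ b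
  rw [inv_mul_cancel, exB_one] at h
  exact eq_neg_of_add_eq_zero_left h.symm

theorem exB_pow (b : Bˣ) (m : ℕ) : exB k n (b ^ m) = m • exB k n b := by
  induction m with
  | zero => rw [pow_zero, exB_one, zero_smul]
  | succ m ih => rw [pow_succ, exB_mul, ih, succ_nsmul]

theorem exB_zero_iff [Algebra k B] [IsScalarTower k B (Torus k n)]
    (hinj : Function.Injective (algebraMap B (Torus k n))) (b : Bˣ) :
    exB k n b = 0 ↔ ∃ c : k, c ≠ 0 ∧ (b : B) = algebraMap k B c := by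
  rw [exB, ex_zero_iff]
  have h1 : ∀ c : k, algebraMap k (Torus k n) c = algebraMap B (Torus k n) (algebraMap k B c) :=
    fun c => IsScalarTower.algebraMap_apply k B (Torus k n) c
  have h2 : (Units.map (algebraMap B (Torus k n)).toMonoidHom b).val
      = algebraMap B (Torus k n) b := rfl
  constructor
  · rintro ⟨c, hc, h⟩
    refine ⟨c, hc, hinj ?_⟩
    rw [← h1, ← h, h2]
  · rintro ⟨c, hc, h⟩
    exact ⟨c, hc, by rw [h2, h, h1]⟩

end ExB

end FD
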